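import Pool.Agent.Lib.MP_60829e_nt.HS.Main
import Pool.Agent.Lib.MP_60829e_nt.SL.HypL

/-! # The kernel of a multiplication map, values in `Lt` -/

open Module

namespace MP60829e.ZB

open MP60829e.ST (Qa Lsp Lt)

/-- **Kernel.** `r` numbers which are linearly independent over the algebraic numbers satisfy
`∑ x i * v i = 0` only for the `v` in a space of dimension `≤ r * r` of vectors of linear forms in
`1` and logarithms. -/
theorem kerM {r : ℕ} (x : Fin r → ℂ) (hx : LinearIndependent Qa x)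
    (K : Submodule Qa (Fin r → ℂ)) (hK : ∀ v ∈ K, ∀ i, v i ∈ Lt)
    (h : ∀ v ∈ K, ∑ i, x i * v i = 0) : FiniteDimensional Qa K ∧ finrank Qa K ≤ r * r := by
  classical
  obtain ⟨q, hq⟩ : ∃ q : K →ₗ[Qa] (Fin r → ℂ ⧸ Lsp),
      q = (LinearMap.pi fun i => Lsp.mkQ.comp (LinearMap.proj i)).comp K.subtype := ⟨_, rfl⟩
  have hqa : ∀ (v : K) i, q v i = Lsp.mkQ ((v : Fin r → ℂ) i) := by
    intro v i
    rw [hq]
    rfl
  -- the kernel
  obtain ⟨K0, hK0⟩ : ∃ K0 : Submodule Qa (Fin r → ℂ), K0 = (LinearMap.ker q).map K.subtype :=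
    ⟨_, rfl⟩
  have h1 : ∀ v ∈ K0, v ∈ K ∧ ∀ i, v i ∈ Lsp := by
    intro v hv
    rw [hK0] at hv
    obtain ⟨w, hw, rfl⟩ := hv
    refine ⟨w.2, fun i => ?_⟩
    have h2 := congrFun (LinearMap.mem_ker.1 hw) i
    rw [hqa] at h2
    exact (Submodule.Quotient.mk_eq_zero Lsp).1 h2
  obtain ⟨h2, h3⟩ := HS.hps x hx K0 (fun v hv => (h1 v hv).2) fun v hv => h v (h1 v hv).1
  have e1 : LinearMap.ker q ≃ₗ[Qa] K0 := by
    rw [hK0]
    exact Submodule.equivMapOfInjective K.subtype K.subtype_injective (LinearMap.ker q)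
  have hkf : FiniteDimensional Qa (LinearMap.ker q) := LinearEquiv.finiteDimensional e1.symm
  have hk : finrank Qa (LinearMap.ker q) ≤ r * (r - 1) := by
    rw [LinearEquiv.finrank_eq e1]
    exact h3
  -- the range
  have h4 : LinearMap.range q ≤ Submodule.span Qa
      (Set.range fun i : Fin r => (Pi.single i (Lsp.mkQ (1 : ℂ)) : Fin r → ℂ ⧸ Lsp)) := by
    rintro _ ⟨v, rfl⟩
    have h5 : ∀ i, ∃ c : Qa, Lsp.mkQ ((v : Fin r → ℂ) i) = c • Lsp.mkQ (1 : ℂ) := by
      intro i
      obtain ⟨β, l, hl, hβ⟩ := SL.mem_Lt (hK v v.2 i)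
      refine ⟨β, ?_⟩
      have h6 : Lsp.mkQ l = 0 := (Submodule.Quotient.mk_eq_zero Lsp).2 hl
      rw [hβ, map_add, h6, add_zero, ← map_smul, Algebra.smul_def, mul_one]
      rfl
    choose c hc using h5
    have h6 : q v = ∑ i, c i • (Pi.single i (Lsp.mkQ (1 : ℂ)) : Fin r → ℂ ⧸ Lsp) := by
      funext i
      rw [hqa, hc i, Finset.sum_apply, Finset.sum_eq_single i]
      · rw [Pi.smul_apply, Pi.single_eq_same]
      · intro i' _ hi'
        rw [Pi.smul_apply, Pi.single_eq_of_ne (Ne.symm hi'), smul_zero]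
      · intro h7
        exact absurd (Finset.mem_univ _) h7
    rw [h6]
    exact Submodule.sum_mem _ fun i _ => Submodule.smul_mem _ _ (Submodule.subset_span ⟨i, rfl⟩)
  have hsf : FiniteDimensional Qa (Submodule.span Qa
      (Set.range fun i : Fin r => (Pi.single i (Lsp.mkQ (1 : ℂ)) : Fin r → ℂ ⧸ Lsp))) :=
    FiniteDimensional.span_of_finite Qa (Set.finite_range _)
  have hrf : FiniteDimensional Qa (LinearMap.range q) := Submodule.finiteDimensional_of_le h4
  have hr : finrank Qa (LinearMap.range q) ≤ r := by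
    refine (Submodule.finrank_mono h4).trans ?_
    refine (finrank_range_le_card _).trans (le_of_eq ?_)
    rw [Fintype.card_fin]
  have h7 : Module.rank Qa (LinearMap.range q) + Module.rank Qa (LinearMap.ker q) =
    Module.rank Qa K := LinearMap.rank_range_add_rank_ker q
  have h8 : Module.rank Qa K < Cardinal.aleph0 := by
    rw [← h7]
    exact Cardinal.add_lt_aleph0 (rank_lt_aleph0 Qa _) (rank_lt_aleph0 Qa _)
  have hKf : FiniteDimensional Qa K := Module.rank_lt_aleph0_iff.1 h8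
  refine ⟨hKf, ?_⟩
  rw [← LinearMap.finrank_range_add_finrank_ker q]
  have h9 : r * (r - 1) + r = r * r := by
    rcases Nat.eq_zero_or_pos r with h0 | h0
    · subst h0; rfl
    · obtain ⟨k, rfl⟩ : ∃ k, r = k + 1 := ⟨r - 1, by omega⟩
      rw [Nat.add_sub_cancel]
      ring
  omega

/-- The same for a family of relations. -/
theorem kerB {r N : ℕ} (x : Fin r → ℂ) (hx : LinearIndependent Qa x) (v : Fin N → Fin r → ℂ)
    (hv : LinearIndependent Qa v) (hL : ∀ s i, v s i ∈ Lt) (h : ∀ s, ∑ i, v s i * x i = 0) :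
    N ≤ r * r := by
  have h1 : ∀ w ∈ Submodule.span Qa (Set.range v), (∀ i, w i ∈ Lt) ∧ ∑ i, x i * w i = 0 := by
    intro w hw
    induction hw using Submodule.span_induction with
    | mem w hw =>
      obtain ⟨s, rfl⟩ := hw
      refine ⟨hL s, ?_⟩
      rw [← h s]
      exact Finset.sum_congr rfl fun i _ => mul_comm _ _
    | zero =>
      refine ⟨fun i => Lt.zero_mem, ?_⟩
      simp
    | add a b _ _ ha hb =>
      refine ⟨fun i => Lt.add_mem (ha.1 i) (hb.1 i), ?_⟩
      simp only [Pi.add_apply, mul_add]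
      rw [Finset.sum_add_distrib, ha.2, hb.2, add_zero]
    | smul c a _ ha =>
      refine ⟨fun i => Lt.smul_mem c (ha.1 i), ?_⟩
      simp only [Pi.smul_apply, mul_smul_comm]
      rw [← Finset.smul_sum, ha.2, smul_zero]
  obtain ⟨-, h2⟩ := kerM x hx _ (fun w hw => (h1 w hw).1) fun w hw => (h1 w hw).2
  rwa [finrank_span_eq_card hv, Fintype.card_fin] at h2

end MP60829e.ZB
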