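import Mathlib
import Pool.Agent.Lib.MP_60829e_nt.ST.StrField

/-! # Products of a logarithm of an integer and an arbitrary logarithm: definitions

`Qa` is the field of algebraic numbers, `V` a `Qa`-space of complex numbers (in the application
`V = Lt`, the span of `1` and all logarithms), `Th` a finite-dimensional `Qa`-space of complex
numbers (it need not contain `1`). -/

open Module

namespace MP60829e.ZB

open MP60829e.ST (Qa Lsp Lt)

/-- The kernel of the multiplication `V ⊗ X → ℂ` has dimension at most `(dim X) ^ 2` for every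
finite-dimensional `X` (elementary form), and `1` is in `V`. -/
def KR (V : Submodule Qa ℂ) : Prop :=
  (1 : ℂ) ∈ V ∧ ∀ (r N : ℕ) (x : Fin r → ℂ), LinearIndependent Qa x →
    ∀ v : Fin N → Fin r → ℂ, LinearIndependent Qa v → (∀ s i, v s i ∈ V) →
      (∀ s, ∑ i, v s i * x i = 0) → N ≤ r * r

/-- The family `v` is linearly independent modulo the space `E`. -/
def Ind (E : Submodule Qa ℂ) {ι : Type} (v : ι → ℂ) : Prop :=
  LinearIndependent Qa (fun i => E.mkQ (v i))

/-- A grid of side `t` in three directions: at the point `(a, b, c)` the element `f a b c` of `V` is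
not in `Th`, but its product with `η a + ξ b + ζ c` is in `Th * V`. -/
structure Conf (V Th : Submodule Qa ℂ) (t : ℕ) (η ξ ζ : Fin t → ℂ)
    (f : Fin t → Fin t → Fin t → ℂ) : Prop where
  mη : ∀ a, η a ∈ V
  mξ : ∀ a, ξ a ∈ V
  mζ : ∀ a, ζ a ∈ V
  /-- independent modulo `Th` -/
  ind : Ind Th (Sum.elim η (Sum.elim ξ ζ))
  /-- independent modulo `Qa` -/
  ind1 : Ind (Submodule.span Qa {(1 : ℂ)}) (Sum.elim η (Sum.elim ξ ζ))
  fV : ∀ a b c, f a b c ∈ V
  fTh : ∀ a b c, f a b c ∉ Th
  rel : ∀ a b c, f a b c * (η a + ξ b + ζ c) ∈ Th * V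

/-- Restriction to a subgrid. -/
theorem Conf.comp {V Th : Submodule Qa ℂ} {t T : ℕ} {η ξ ζ : Fin T → ℂ}
    {f : Fin T → Fin T → Fin T → ℂ} (h : Conf V Th T η ξ ζ f) {e1 e2 e3 : Fin t → Fin T}
    (h1 : Function.Injective e1) (h2 : Function.Injective e2) (h3 : Function.Injective e3) :
    Conf V Th t (fun a => η (e1 a)) (fun a => ξ (e2 a)) (fun a => ζ (e3 a))
      (fun a b c => f (e1 a) (e2 b) (e3 c)) := by
  have hinj : Function.Injective (Sum.map e1 (Sum.map e2 e3)) :=
    Sum.map_injective.2 ⟨h1, Sum.map_injective.2 ⟨h2, h3⟩⟩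
  have hcomp : ∀ x : Fin t ⊕ (Fin t ⊕ Fin t),
      Sum.elim (fun a => η (e1 a)) (Sum.elim (fun a => ξ (e2 a)) (fun a => ζ (e3 a))) x =
        Sum.elim η (Sum.elim ξ ζ) (Sum.map e1 (Sum.map e2 e3) x) := by
    rintro (x | x | x) <;> rfl
  refine ⟨fun a => h.mη _, fun a => h.mξ _, fun a => h.mζ _, ?_, ?_, fun a b c => h.fV _ _ _,
    fun a b c => h.fTh _ _ _, fun a b c => h.rel _ _ _⟩
  · have h5 := h.ind.comp _ hinj
    unfold Ind
    simp only [hcomp]
    exact h5
  · have h5 := h.ind1.comp _ hinj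
    unfold Ind
    simp only [hcomp]
    exact h5

/-- The natural numbers `n` such that `l * log n` is in `Th * V` for some `l` in `V` which is not in
`Th`. -/
def BadZ (V Th : Submodule Qa ℂ) : Set ℕ :=
  {n | ∃ l ∈ V, l ∉ Th ∧ l * ((Real.log n : ℝ) : ℂ) ∈ Th * V}

end MP60829e.ZB
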