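import Mathlib
import Pool.Agent.Lib.MP_60829e_nt.ZB.Defs
import Pool.Agent.Lib.MP_60829e_nt.BBaker

/-! # Four exponentials for almost all integers -/

open Module

namespace MP60829e.ZB

open MP60829e.ST (Qa Lsp Lt)

private theorem irr_indep {θ t : ℂ} (hθ : θ ≠ 0) (hq : ¬ ∃ q : ℚ, (q : ℂ) = t) :
    LinearIndependent ℚ ![θ, t * θ] := by
  rw [LinearIndependent.pair_iff]
  intro a b hab
  have h1 : ((a : ℂ) + b * t) * θ = 0 := by
    rw [Rat.smul_def, Rat.smul_def] at hab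
    linear_combination hab
  have h2 : (a : ℂ) + b * t = 0 := (mul_eq_zero.mp h1).resolve_right hθ
  have hb : b = 0 := by
    by_contra hb
    apply hq
    have hb' : (b : ℂ) ≠ 0 := by exact_mod_cast hb
    refine ⟨-a / b, ?_⟩
    push_cast
    field_simp
    linear_combination -h2
  subst hb
  refine ⟨?_, rfl⟩
  have h3 : (a : ℂ) = 0 := by simpa using h2
  exact_mod_cast h3

/-- Baker's theorem for two logarithms: `θ` and `t * θ` are logarithms of algebraic numbers and `t`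
is algebraic, then `t` is rational (Gelfond and Schneider). -/
theorem rat_of_alg {θ t : ℂ} (hθ : θ ≠ 0) (hal : IsAlgebraic ℚ (Complex.exp θ))
    (h1 : IsAlgebraic ℚ (Complex.exp (t * θ))) (ht : IsAlgebraic ℚ t) : ∃ q : ℚ, (q : ℂ) = t := by
  by_contra hq
  have h2 := Pool.Agent.Lib.MP_60829e_nt.Bk.baker_hom ![θ, t * θ] (by
    intro i
    fin_cases i
    · exact hal
    · exact h1) (irr_indep hθ hq) ![-t, 1] (by
    intro i
    fin_cases i
    · exact ht.neg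
    · exact isAlgebraic_one) (by
    simp only [Fin.sum_univ_two, Matrix.cons_val_zero, Matrix.cons_val_one]
    ring)
  have h3 := h2 1
  simp at h3

/-- The exceptional set of the four exponentials is contained in `BadZ`. -/
theorem four_sub {θ t : ℂ} (hθ : θ ≠ 0) (hal : IsAlgebraic ℚ (Complex.exp θ)) (n : ℕ)
    (h1 : IsAlgebraic ℚ (Complex.exp (t * θ)))
    (h2 : IsAlgebraic ℚ (Complex.exp (t * ((Real.log n : ℝ) : ℂ))))
    (hq : ¬ ∃ q : ℚ, (q : ℂ) = t) : n ∈ BadZ Lt (Submodule.span Qa {θ}) := by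
  refine ⟨t * θ, Submodule.subset_span (Or.inr h1), ?_, ?_⟩
  · intro hmem
    rw [Submodule.mem_span_singleton] at hmem
    obtain ⟨c, hc⟩ := hmem
    have hc' : (c : ℂ) * θ = t * θ := hc
    have hct : (c : ℂ) = t := mul_right_cancel₀ hθ hc'
    have halg : IsAlgebraic ℚ t := by
      rw [← hct]
      exact (mem_algebraicClosure_iff.mp c.2)
    exact hq (rat_of_alg hθ hal h1 halg)
  · have h3 : t * θ * ((Real.log n : ℝ) : ℂ) = θ * (t * ((Real.log n : ℝ) : ℂ)) := by ring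
    rw [h3]
    exact Submodule.mul_mem_mul (Submodule.mem_span_singleton_self θ)
      (Submodule.subset_span (Or.inr h2))

/-- `four` from `one 1`. -/
theorem four_of_one (hone : ∃ K : ℕ, ∀ Th : Submodule Qa ℂ, FiniteDimensional Qa Th →
    finrank Qa Th ≤ 1 → ∀ B : ℕ, 16 ≤ B →
      ({n : ℕ | 1 ≤ n ∧ n ≤ B ∧ n ∈ BadZ Lt Th}.ncard : ℝ) ≤
        K * Real.log (Real.log B) ^ K / Real.log B * B) :
    ∃ K : ℕ, ∀ θ : ℂ, θ ≠ 0 → IsAlgebraic ℚ (Complex.exp θ) → ∀ B : ℕ, 16 ≤ B →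
      ({n : ℕ | 1 ≤ n ∧ n ≤ B ∧ ∃ t : ℂ, IsAlgebraic ℚ (Complex.exp (t * θ)) ∧
        IsAlgebraic ℚ (Complex.exp (t * ((Real.log n : ℝ) : ℂ))) ∧
          ¬ ∃ q : ℚ, (q : ℂ) = t}.ncard : ℝ) ≤
        K * Real.log (Real.log B) ^ K / Real.log B * B := by
  obtain ⟨K, hK⟩ := hone
  refine ⟨K, fun θ hθ hal B hB => ?_⟩
  refine le_trans ?_ (hK (Submodule.span Qa {θ}) inferInstance (finrank_span_singleton hθ).le B hB)
  have hfin : {n : ℕ | 1 ≤ n ∧ n ≤ B ∧ n ∈ BadZ Lt (Submodule.span Qa {θ})}.Finite :=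
    (Set.finite_Iic B).subset fun n hn => hn.2.1
  have hsub : {n : ℕ | 1 ≤ n ∧ n ≤ B ∧ ∃ t : ℂ, IsAlgebraic ℚ (Complex.exp (t * θ)) ∧
      IsAlgebraic ℚ (Complex.exp (t * ((Real.log n : ℝ) : ℂ))) ∧
        ¬ ∃ q : ℚ, (q : ℂ) = t} ⊆
      {n : ℕ | 1 ≤ n ∧ n ≤ B ∧ n ∈ BadZ Lt (Submodule.span Qa {θ})} := by
    rintro n ⟨hn1, hn2, t, ht1, ht2, ht3⟩
    exact ⟨hn1, hn2, four_sub hθ hal n ht1 ht2 ht3⟩
  have h := Set.ncard_le_ncard hsub hfin
  exact_mod_cast h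

end MP60829e.ZB
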