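import Mathlib
import Pool.Agent.Lib.MP_60829e_nt.ZB.Defs
import Pool.Agent.Lib.MP_60829e_nt.ZB.Hyp

/-! # The kernel bound for logarithms -/

open Module

namespace MP60829e.ZB

open MP60829e.ST (Qa Lsp Lt)

theorem kr_Lt : KR Lt :=
  ⟨Submodule.subset_span (Or.inl rfl), fun _ _ x hx v hv hL h =>
    kerB x hx v hv hL h⟩

end MP60829e.ZB
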