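import Mathlib
import Pool.Agent.Lib.MP_60829e_nt.ZB.Defs

/-! # Kernels of the multiplication `V ⊗ X → ℂ` -/

open Module

namespace MP60829e.ZB

open MP60829e.ST (Qa Lsp Lt)
open scoped TensorProduct

/-- contraction on the right: `v ⊗ x ↦ φ x • v` -/
noncomputable def cR (V X : Submodule Qa ℂ) (φ : ℂ →ₗ[Qa] Qa) : V ⊗[Qa] X →ₗ[Qa] ℂ :=
  V.subtype ∘ₗ (TensorProduct.rid Qa V).toLinearMap ∘ₗ LinearMap.lTensor V (φ ∘ₗ X.subtype)

/-- contraction on the left: `v ⊗ x ↦ ψ v • x` -/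
noncomputable def cL (V X : Submodule Qa ℂ) (ψ : ℂ →ₗ[Qa] Qa) : V ⊗[Qa] X →ₗ[Qa] ℂ :=
  X.subtype ∘ₗ (TensorProduct.lid Qa X).toLinearMap ∘ₗ LinearMap.rTensor X (ψ ∘ₗ V.subtype)

theorem cR_tmul (V X : Submodule Qa ℂ) (φ : ℂ →ₗ[Qa] Qa) (v : V) (x : X) :
    cR V X φ (v ⊗ₜ x) = φ x • (v : ℂ) := by
  simp [cR]

theorem cL_tmul (V X : Submodule Qa ℂ) (ψ : ℂ →ₗ[Qa] Qa) (v : V) (x : X) :
    cL V X ψ (v ⊗ₜ x) = ψ v • (x : ℂ) := by
  simp [cL]

/-- The elements of `Th * V` come from tensors which are killed by the functionals which kill `Th`. -/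
theorem exists_lift {V X Th : Submodule Qa ℂ} (hTX : Th ≤ X) {z : ℂ} (hz : z ∈ Th * V) :
    ∃ s : V ⊗[Qa] X, Submodule.mulMap V X s = z ∧
      (∀ φ : ℂ →ₗ[Qa] Qa, (∀ x ∈ Th, φ x = 0) → cR V X φ s = 0) ∧
      (∀ ψ : ℂ →ₗ[Qa] Qa, cL V X ψ s ∈ Th) := by
  induction hz using Submodule.mul_induction_on' with
  | mem_mul_mem t ht v hv =>
    refine ⟨(⟨v, hv⟩ : V) ⊗ₜ (⟨t, hTX ht⟩ : X), ?_, ?_, ?_⟩
    · rw [Submodule.mulMap_tmul]
      exact mul_comm v t
    · intro φ hφ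
      rw [cR_tmul, hφ t ht, zero_smul]
    · intro ψ
      rw [cL_tmul]
      exact Submodule.smul_mem _ _ ht
  | add x _ y _ hx hy =>
    obtain ⟨s, h1, h2, h3⟩ := hx
    obtain ⟨s', h1', h2', h3'⟩ := hy
    refine ⟨s + s', by rw [map_add, h1, h1'], fun φ hφ => ?_, fun ψ => ?_⟩
    · rw [map_add, h2 φ hφ, h2' φ hφ, add_zero]
    · rw [map_add]
      exact Submodule.add_mem _ (h3 ψ) (h3' ψ)

/-- Coordinates of a tensor. -/
theorem tensor_coord (V X : Submodule Qa ℂ) {n : ℕ} (b : Basis (Fin n) Qa X) (T : V ⊗[Qa] X) :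
    ∑ i, ((TensorProduct.rid Qa V) (LinearMap.lTensor V (b.coord i) T)) ⊗ₜ[Qa] b i = T := by
  induction T using TensorProduct.induction_on with
  | zero => simp
  | tmul v x =>
    simp only [LinearMap.lTensor_tmul, TensorProduct.rid_tmul, TensorProduct.smul_tmul]
    rw [← TensorProduct.tmul_sum]
    congr 1
    exact b.sum_repr x
  | add S T hS hT =>
    simp only [map_add, TensorProduct.add_tmul, Finset.sum_add_distrib]
    rw [hS, hT]

/-- Too many elements of the kernel are dependent. -/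
theorem exists_rel {V X : Submodule Qa ℂ} (hV : KR V) [FiniteDimensional Qa X] {r : ℕ}
    (hr : finrank Qa X ≤ r) {ι : Type} [Fintype ι] (hι : r ^ 2 < Fintype.card ι)
    (T : ι → V ⊗[Qa] X) (hT : ∀ i, Submodule.mulMap V X (T i) = 0) :
    ∃ γ : ι → Qa, γ ≠ 0 ∧ ∑ i, γ i • T i = 0 := by
  classical
  set b := finBasis Qa X with hb
  set co : Fin (finrank Qa X) → (V ⊗[Qa] X →ₗ[Qa] V) := fun i =>
    (TensorProduct.rid Qa V).toLinearMap ∘ₗ LinearMap.lTensor V (b.coord i) with hco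
  have hrec : ∀ S : V ⊗[Qa] X, ∑ i, (co i S) ⊗ₜ[Qa] b i = S := tensor_coord V X b
  by_contra hcon
  push Not at hcon
  have hx : LinearIndependent Qa fun i => ((b i : X) : ℂ) :=
    b.linearIndependent.map' X.subtype (Submodule.ker_subtype X)
  have hv : LinearIndependent Qa fun (s : ι) (i : Fin (finrank Qa X)) => ((co i (T s) : V) : ℂ) := by
    rw [Fintype.linearIndependent_iff]
    intro γ hγ
    by_contra hne
    push Not at hne
    obtain ⟨s, hs⟩ := hne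
    refine hcon γ (fun h0 => hs (by rw [h0]; rfl)) ?_
    rw [← hrec (∑ s, γ s • T s)]
    refine Finset.sum_eq_zero fun i _ => ?_
    have h1 : co i (∑ s, γ s • T s) = 0 := by
      apply Subtype.ext
      have h2 := congrFun hγ i
      rw [map_sum]
      simp only [map_smul]
      rw [Finset.sum_apply] at h2
      push_cast
      exact h2
    rw [h1, TensorProduct.zero_tmul]
  set e := Fintype.equivFin ι with he
  have h3 := hV.2 (finrank Qa X) (Fintype.card ι) (fun i => ((b i : X) : ℂ)) hx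
    (fun s i => ((co i (T (e.symm s)) : V) : ℂ)) (hv.comp _ e.symm.injective)
    (fun s i => Subtype.mem _) (fun s => by
      have h4 := congrArg (Submodule.mulMap V X) (hrec (T (e.symm s)))
      rw [hT, map_sum] at h4
      rw [← h4]
      exact Finset.sum_congr rfl fun i _ => (Submodule.mulMap_tmul _ _ _ _).symm)
  have h5 : finrank Qa X * finrank Qa X ≤ r ^ 2 := by
    rw [pow_two]
    exact Nat.mul_le_mul hr hr
  omega

/-- **Step 1 lemma.** More than `r ^ 2` relations `v i * x i ∈ Th * V`, `x i ∈ X`, `dim X ≤ r`, give a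
linear relation between the tensors `v i ⊗ x i` modulo `V ⊗ Th`. (helper65) -/
theorem dep {V : Submodule Qa ℂ} (hV : KR V) {Th X : Submodule Qa ℂ} [FiniteDimensional Qa X]
    (hTX : Th ≤ X) {r : ℕ} (hr : finrank Qa X ≤ r) {ι : Type} [Fintype ι] (v x : ι → ℂ)
    (hv : ∀ i, v i ∈ V) (hx : ∀ i, x i ∈ X) (h : ∀ i, v i * x i ∈ Th * V)
    (hcard : r ^ 2 < Fintype.card ι) :
    ∃ γ : ι → Qa, γ ≠ 0 ∧ ∀ φ : Dual Qa ℂ, (∀ y ∈ Th, φ y = 0) →
      ∑ i, (γ i * φ (x i)) • v i = 0 := by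
  choose s hs1 hs2 hs3 using fun i => exists_lift (X := X) hTX (h i)
  obtain ⟨γ, hγ, h0⟩ := exists_rel hV hr hcard
    (fun i => (⟨v i, hv i⟩ : V) ⊗ₜ[Qa] (⟨x i, hx i⟩ : X) - s i) (fun i => by
      rw [map_sub, Submodule.mulMap_tmul, hs1, sub_self])
  refine ⟨γ, hγ, fun φ hφ => ?_⟩
  have h1 := congrArg (cR V X φ) h0
  rw [map_sum, map_zero] at h1
  rw [← h1]
  refine Finset.sum_congr rfl fun i _ => ?_
  rw [map_smul, map_sub, cR_tmul, hs2 i φ hφ, sub_zero, smul_smul]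

/-- **Step 2 lemma.** The values of a functional vanishing on `Th` at all kernel elements modulo
`V ⊗ Th` lie in a space of dimension `≤ r ^ 2`. (helper65) -/
theorem slice {V : Submodule Qa ℂ} (hV : KR V) {Th X : Submodule Qa ℂ} [FiniteDimensional Qa X]
    (hTX : Th ≤ X) {r : ℕ} (hr : finrank Qa X ≤ r) (φ : Dual Qa ℂ) (hφ : ∀ y ∈ Th, φ y = 0) :
    ∃ W : Submodule Qa ℂ, FiniteDimensional Qa W ∧ finrank Qa W ≤ r ^ 2 ∧ W ≤ V ∧
      ∀ {ι : Type} (s : Finset ι) (v x : ι → ℂ), (∀ i ∈ s, v i ∈ V) → (∀ i ∈ s, x i ∈ X) →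
        ∑ i ∈ s, v i * x i ∈ Th * V → ∑ i ∈ s, φ (x i) • v i ∈ W := by
  classical
  set W : Submodule Qa ℂ := (LinearMap.ker (Submodule.mulMap V X)).map (cR V X φ) with hW
  have hrank : Module.rank Qa W ≤ (r ^ 2 : ℕ) := by
    refine rank_le fun t ht => ?_
    by_contra hcard
    push Not at hcard
    have h1 : ∀ w : t, ∃ T : V ⊗[Qa] X, Submodule.mulMap V X T = 0 ∧ cR V X φ T = ((w : W) : ℂ) := by
      intro w
      obtain ⟨T, hT, h2⟩ := (w : W).2
      exact ⟨T, hT, h2⟩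
    choose T hT1 hT2 using h1
    obtain ⟨γ, hγ, h0⟩ := exists_rel hV hr (by rw [Fintype.card_coe]; exact hcard) T hT1
    have h3 := congrArg (cR V X φ) h0
    rw [map_sum, map_zero] at h3
    simp only [map_smul, hT2] at h3
    apply hγ
    funext w
    refine Fintype.linearIndependent_iff.1 ht γ ?_ w
    apply Subtype.ext
    push_cast
    exact h3
  have hfin : FiniteDimensional Qa W :=
    Module.rank_lt_aleph0_iff.1 (hrank.trans_lt (Cardinal.natCast_lt_aleph0))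
  refine ⟨W, hfin, ?_, ?_, ?_⟩
  · rw [← finrank_eq_rank] at hrank
    exact_mod_cast hrank
  · rintro _ ⟨T, -, rfl⟩
    exact Subtype.mem _
  · intro ι s v x hv hx h
    obtain ⟨T, hT1, hT2, hT3⟩ := exists_lift (X := X) hTX h
    refine ⟨∑ i : s, (⟨v i, hv i i.2⟩ : V) ⊗ₜ[Qa] (⟨x i, hx i i.2⟩ : X) - T, ?_, ?_⟩
    · rw [SetLike.mem_coe, LinearMap.mem_ker, map_sub, map_sum, hT1, sub_eq_zero,
        ← Finset.sum_coe_sort s]
      exact Finset.sum_congr rfl fun i _ => Submodule.mulMap_tmul _ _ _ _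
    · rw [map_sub, map_sum, hT2 φ hφ, sub_zero, ← Finset.sum_coe_sort s]
      exact Finset.sum_congr rfl fun i _ => cR_tmul _ _ _ _ _

/-- Functionals with prescribed values on a family independent modulo `E`, zero on `E`. (me) -/
theorem exists_dual {E : Submodule Qa ℂ} {ι : Type} {v : ι → ℂ} (h : Ind E v) (g : ι → Qa) :
    ∃ φ : Dual Qa ℂ, (∀ y ∈ E, φ y = 0) ∧ ∀ i, φ (v i) = g i := by
  have h' : LinearIndependent Qa (fun i => E.mkQ (v i)) := h
  obtain ⟨ψ, hψ⟩ := LinearMap.exists_extend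
    (Basis.constr (Basis.span h') Qa g : _ →ₗ[Qa] Qa)
  refine ⟨ψ ∘ₗ E.mkQ, fun y hy => ?_, fun i => ?_⟩
  · rw [LinearMap.comp_apply, Submodule.mkQ_apply, (Submodule.Quotient.mk_eq_zero E).2 hy, map_zero]
  · have h1 := congrArg (fun m => m (Basis.span h' i)) hψ
    simp only [LinearMap.comp_apply, Basis.constr_basis] at h1
    rw [LinearMap.comp_apply, ← h1, Basis.span_apply]
    rfl

/-- **Step 3 lemma.** (helper65) -/
theorem key {V : Submodule Qa ℂ} (hV : KR V) {Th X : Submodule Qa ℂ} [FiniteDimensional Qa X]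
    (hTX : Th ≤ X) {r : ℕ} (hr : finrank Qa X ≤ r) {ι : Type} [Fintype ι] (η g g' : ι → ℂ)
    (hη : ∀ a, η a ∈ V) (hind : Ind (Submodule.span Qa {(1 : ℂ)}) η) (hg : ∀ a, g a ∈ X)
    (hgT : ∀ a, g a ∉ Th) (hg' : ∀ a, g' a ∈ X) (h : ∀ a, η a * g a + g' a ∈ Th * V) :
    Fintype.card ι ≤ r ^ 2 := by
  classical
  by_contra hι
  push Not at hι
  choose s hs1 hs2 hs3 using fun i => exists_lift (X := X) hTX (h i)
  obtain ⟨γ, hγ, h0⟩ := exists_rel hV hr hι
    (fun i => (⟨η i, hη i⟩ : V) ⊗ₜ[Qa] (⟨g i, hg i⟩ : X) +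
      (⟨1, hV.1⟩ : V) ⊗ₜ[Qa] (⟨g' i, hg' i⟩ : X) - s i) (fun i => by
      rw [map_sub, map_add, Submodule.mulMap_tmul, Submodule.mulMap_tmul, hs1]
      simp)
  obtain ⟨i, hi⟩ := Function.ne_iff.1 hγ
  obtain ⟨ψ, hψ1, hψ⟩ := exists_dual hind (Pi.single i 1)
  have hψ1' : ψ 1 = 0 := hψ1 1 (Submodule.mem_span_singleton_self _)
  have h1 := congrArg (cL V X ψ) h0
  rw [map_sum, map_zero] at h1
  have h2 : ∀ j, cL V X ψ (γ j • ((⟨η j, hη j⟩ : V) ⊗ₜ[Qa] (⟨g j, hg j⟩ : X) +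
      (⟨1, hV.1⟩ : V) ⊗ₜ[Qa] (⟨g' j, hg' j⟩ : X) - s j)) =
      (γ j * ψ (η j)) • g j - γ j • cL V X ψ (s j) := by
    intro j
    rw [map_smul, map_sub, map_add, cL_tmul, cL_tmul]
    simp only [hψ1', zero_smul, add_zero]
    rw [smul_sub, smul_smul]
  simp only [h2] at h1
  rw [Finset.sum_sub_distrib, Finset.sum_eq_single i] at h1
  · rw [hψ, Pi.single_eq_same, mul_one, sub_eq_zero] at h1
    apply hgT i
    have h3 : γ i • g i ∈ Th := by
      rw [h1]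
      exact Submodule.sum_mem _ fun j _ => Submodule.smul_mem _ _ (hs3 j ψ)
    exact (Submodule.smul_mem_iff _ hi).1 h3
  · intro j _ hj
    rw [hψ, Pi.single_eq_of_ne hj, mul_zero, zero_smul]
  · intro hi'
    exact absurd (Finset.mem_univ i) hi'

end MP60829e.ZB
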