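import Mathlib

/-!
# Product Ramsey lemmas (finite colourings of grids)

`prod_ramsey`: a finite colouring of a large grid is constant on a subgrid.
`block_ramsey`: the same for the transversals of blocks.
`pos3`, `pos1`: the two forms used for ZB.
-/

namespace Pool.Agent.Lib.MP_60829e_nt.ZB

private theorem pig (κ : Type) [Finite κ] (m : ℕ) : ∃ M, ∀ g : Fin M → κ,
    ∃ (k : κ) (e : Fin m → Fin M), StrictMono e ∧ ∀ x, g (e x) = k := by
  classical
  have := Fintype.ofFinite κ
  refine ⟨Fintype.card κ * m + 1, fun g => ?_⟩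
  obtain ⟨k, hk⟩ := Fintype.exists_lt_card_fiber_of_mul_lt_card (f := g) (n := m)
    (by rw [Fintype.card_fin]; omega)
  refine ⟨k, fun x => (Finset.univ.filter fun y => g y = k).orderEmbOfCardLe hk.le x,
    fun x y h => (Finset.orderEmbOfCardLe _ _).strictMono h, fun x => ?_⟩
  have := Finset.orderEmbOfCardLe_mem (Finset.univ.filter fun y => g y = k) hk.le x
  exact (Finset.mem_filter.mp this).2

private theorem prodFin (d : ℕ) : ∀ (κ : Type) [Finite κ] (m : ℕ), ∃ N₀, ∀ N, N₀ ≤ N →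
    ∀ c : (Fin d → Fin N) → κ, ∃ (k : κ) (e : Fin d → Fin m → Fin N),
      (∀ i, StrictMono (e i)) ∧ ∀ w : Fin d → Fin m, c (fun i => e i (w i)) = k := by
  induction d with
  | zero =>
    intro κ _ m
    refine ⟨0, fun N _ c => ⟨c (fun i => i.elim0), fun i => i.elim0, fun i => i.elim0,
      fun w => ?_⟩⟩
    congr 1
    funext i
    exact i.elim0
  | succ d ih =>
    intro κ _ m
    obtain ⟨M, hM⟩ := pig κ m
    obtain ⟨N₁, h₁⟩ := ih (Fin M → κ) m
    refine ⟨max M N₁, fun N hN c => ?_⟩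
    have hMN : M ≤ N := (le_max_left _ _).trans hN
    obtain ⟨g, e, he, hg⟩ := h₁ N ((le_max_right _ _).trans hN)
      (fun w j => c (Fin.cons (Fin.castLE hMN j) w))
    obtain ⟨k, e0, he0, hk⟩ := hM g
    refine ⟨k, Fin.cons (fun x => Fin.castLE hMN (e0 x)) e, fun i => ?_, fun w => ?_⟩
    · refine Fin.cases ?_ (fun i => ?_) i
      · intro x y h
        simpa using he0 h
      · simpa using he i
    · have h2 : (fun i => (Fin.cons (fun x => Fin.castLE hMN (e0 x)) e :
          Fin (d + 1) → Fin m → Fin N) i (w i)) =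
          Fin.cons (Fin.castLE hMN (e0 (w 0))) (fun i => e i (w i.succ)) := by
        funext i
        refine Fin.cases ?_ (fun i => ?_) i
        · simp
        · simp
      rw [h2]
      have h3 := congrFun (hg (fun i => w i.succ)) (e0 (w 0))
      rw [← hk (w 0)]
      exact h3

/-- A finite colouring of a large grid is constant on a subgrid. -/
theorem prod_ramsey {I : Type} [Finite I] (κ : Type) [Finite κ] (m : ℕ) : ∃ N₀, ∀ N, N₀ ≤ N →
    ∀ c : (I → Fin N) → κ, ∃ (k : κ) (e : I → Fin m → Fin N),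
      (∀ i, StrictMono (e i)) ∧ ∀ w : I → Fin m, c (fun i => e i (w i)) = k := by
  obtain ⟨d, ⟨σ⟩⟩ := Finite.exists_equiv_fin I
  obtain ⟨N₀, h₀⟩ := prodFin d κ m
  refine ⟨N₀, fun N hN c => ?_⟩
  obtain ⟨k, e, he, hk⟩ := h₀ N hN (fun w => c (fun i => w (σ i)))
  refine ⟨k, fun i => e (σ i), fun i => he _, fun w => ?_⟩
  have := hk (fun j => w (σ.symm j))
  simpa using this

/-- Colourings of the transversals of blocks: `s t` blocks in the direction `t`. -/
theorem block_ramsey {d : ℕ} (s : Fin d → ℕ) (κ : Type) [Finite κ] (m : ℕ) : ∃ N₀, ∀ N, N₀ ≤ N →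
    ∀ P : ((t : Fin d) → Fin (s t) → Fin N) → κ → Prop,
      (∀ q, (∀ t, StrictMono (q t)) → ∃ k, P q k) →
      ∃ (k : κ) (E : (t : Fin d) → Fin (s t) → Fin m → Fin N),
        (∀ t i, StrictMono (E t i)) ∧ (∀ t i j, i < j → ∀ x y, E t i x < E t j y) ∧
        ∀ w : (t : Fin d) → Fin (s t) → Fin m, P (fun t i => E t i (w t i)) k := by
  obtain ⟨N₁, h₁⟩ := prod_ramsey (I := Σ t : Fin d, Fin (s t)) κ m
  refine ⟨(Finset.univ.sup s) * N₁, fun N hN P hP => ?_⟩
  have hlt : ∀ (t : Fin d) (i : Fin (s t)) (x : Fin N₁), (i : ℕ) * N₁ + (x : ℕ) < N := by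
    intro t i x
    have h1 : s t ≤ Finset.univ.sup s := Finset.le_sup (Finset.mem_univ t)
    have h2 : ((i : ℕ) + 1) * N₁ ≤ (Finset.univ.sup s) * N₁ :=
      Nat.mul_le_mul_right _ ((Nat.succ_le_of_lt i.2).trans h1)
    have h3 : ((i : ℕ) + 1) * N₁ = (i : ℕ) * N₁ + N₁ := by ring
    have := x.2
    omega
  have hbl : ∀ (t : Fin d) (i j : Fin (s t)) (x y : Fin N₁), i < j →
      (i : ℕ) * N₁ + (x : ℕ) < (j : ℕ) * N₁ + (y : ℕ) := by
    intro t i j x y hij
    have h2 : ((i : ℕ) + 1) * N₁ ≤ (j : ℕ) * N₁ := Nat.mul_le_mul_right _ (Nat.succ_le_of_lt hij)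
    have h3 : ((i : ℕ) + 1) * N₁ = (i : ℕ) * N₁ + N₁ := by ring
    have := x.2
    omega
  let Q : ((Σ t : Fin d, Fin (s t)) → Fin N₁) → (t : Fin d) → Fin (s t) → Fin N :=
    fun w t i => ⟨(i : ℕ) * N₁ + (w ⟨t, i⟩ : ℕ), hlt t i (w ⟨t, i⟩)⟩
  have hQ : ∀ w t, StrictMono (Q w t) := by
    intro w t i j hij
    exact Fin.mk_lt_mk.mpr (hbl t i j _ _ hij)
  have hc : ∀ w, ∃ k, P (Q w) k := fun w => hP _ (hQ w)
  choose c hc using hc
  obtain ⟨k, e, he, hk⟩ := h₁ N₁ le_rfl c
  refine ⟨k, fun t i x => ⟨(i : ℕ) * N₁ + (e ⟨t, i⟩ x : ℕ), hlt t i _⟩, ?_, ?_, ?_⟩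
  · intro t i x y h
    have h2 : ((e ⟨t, i⟩ x : Fin N₁) : ℕ) < e ⟨t, i⟩ y := he ⟨t, i⟩ h
    refine Fin.mk_lt_mk.mpr ?_
    omega
  · intro t i j hij x y
    exact Fin.mk_lt_mk.mpr (hbl t i j _ _ hij)
  · intro w
    have h2 := hc (fun p => e p (w p.1 p.2))
    rw [hk (fun p => w p.1 p.2)] at h2
    exact h2

private theorem upd_eq {s m N : ℕ} (E : Fin s → Fin (m + 1) → Fin N) (i : Fin s) (x : Fin m) :
    Function.update (fun i' => E i' 0) i (E i x.castSucc) =
      fun i' => E i' (if i' = i then x.castSucc else 0) := by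
  funext i'
  by_cases h : i' = i
  · subst h
    simp
  · simp [h]

private theorem upd_mono {s m N : ℕ} (E : Fin s → Fin (m + 1) → Fin N)
    (hE : ∀ i j, i < j → ∀ x y, E i x < E j y) (w : Fin s → Fin (m + 1)) :
    StrictMono (fun i' => E i' (w i')) := fun i j h => hE i j h _ _

/-- The form of `block_ramsey` used in Step 1: three directions with `s` blocks each, the colour
is a position in the cube.  The other elements of the transversal can be fixed. -/
theorem pos3 (s m : ℕ) : ∃ N₀, ∀ N, N₀ ≤ N →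
    ∀ P : (Fin s → Fin N) → (Fin s → Fin N) → (Fin s → Fin N) → Fin s → Fin s → Fin s → Prop,
      (∀ A B C, StrictMono A → StrictMono B → StrictMono C → ∃ i j l, P A B C i j l) →
      ∃ (i j l : Fin s) (A B C : Fin s → Fin N) (a b c : Fin m → Fin N),
        StrictMono a ∧ StrictMono b ∧ StrictMono c ∧
        (∀ x, StrictMono (Function.update A i (a x))) ∧
        (∀ x, StrictMono (Function.update B j (b x))) ∧
        (∀ x, StrictMono (Function.update C l (c x))) ∧
        ∀ x y z, P (Function.update A i (a x)) (Function.update B j (b y))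
          (Function.update C l (c z)) i j l := by
  obtain ⟨N₀, h₀⟩ := block_ramsey (d := 3) (fun _ => s) (Fin s × Fin s × Fin s) (m + 1)
  refine ⟨N₀, fun N hN P hP => ?_⟩
  obtain ⟨⟨i, j, l⟩, E, hE, hB, hk⟩ := h₀ N hN
    (fun q k => P (q 0) (q 1) (q 2) k.1 k.2.1 k.2.2) (fun q hq => by
      obtain ⟨i, j, l, h⟩ := hP (q 0) (q 1) (q 2) (hq 0) (hq 1) (hq 2)
      exact ⟨(i, j, l), h⟩)
  refine ⟨i, j, l, fun i' => E 0 i' 0, fun i' => E 1 i' 0, fun i' => E 2 i' 0,
    fun x => E 0 i x.castSucc, fun x => E 1 j x.castSucc, fun x => E 2 l x.castSucc,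
    fun x y h => hE 0 i (Fin.castSucc_lt_castSucc_iff.mpr h),
    fun x y h => hE 1 j (Fin.castSucc_lt_castSucc_iff.mpr h),
    fun x y h => hE 2 l (Fin.castSucc_lt_castSucc_iff.mpr h), ?_, ?_, ?_, ?_⟩
  · intro x
    rw [upd_eq (E 0) i x]
    exact upd_mono (E 0) (hB 0) _
  · intro x
    rw [upd_eq (E 1) j x]
    exact upd_mono (E 1) (hB 1) _
  · intro x
    rw [upd_eq (E 2) l x]
    exact upd_mono (E 2) (hB 2) _
  · intro x y z
    rw [upd_eq (E 0) i x, upd_eq (E 1) j y, upd_eq (E 2) l z]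
    exact hk (fun t i' => if t = 0 then (if i' = i then x.castSucc else 0) else
      if t = 1 then (if i' = j then y.castSucc else 0) else
        (if i' = l then z.castSucc else 0))

/-- The form used in Step 2: single elements in the directions one and three, `s` blocks in the
direction two, the colour is one of the blocks. -/
theorem pos1 (s m : ℕ) : ∃ N₀, ∀ N, N₀ ≤ N →
    ∀ P : Fin N → (Fin s → Fin N) → Fin N → Fin s → Prop,
      (∀ a B c, StrictMono B → ∃ j, P a B c j) →
      ∃ (j : Fin s) (B : Fin s → Fin N) (a b c : Fin m → Fin N),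
        StrictMono a ∧ StrictMono b ∧ StrictMono c ∧
        (∀ x, StrictMono (Function.update B j (b x))) ∧
        ∀ x y z, P (a x) (Function.update B j (b y)) (c z) j := by
  obtain ⟨N₁, h₁⟩ := prod_ramsey (I := Option (Option (Fin s))) (Fin s) (m + 1)
  refine ⟨(s + 1) * N₁, fun N hN P hP => ?_⟩
  have hN₁ : N₁ ≤ N := by
    refine le_trans ?_ hN
    calc N₁ = 1 * N₁ := (one_mul _).symm
      _ ≤ (s + 1) * N₁ := Nat.mul_le_mul_right _ (by omega)
  have hlt : ∀ (i : Fin s) (x : Fin N₁), (i : ℕ) * N₁ + (x : ℕ) < N := by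
    intro i x
    have h2 : ((i : ℕ) + 1) * N₁ ≤ (s + 1) * N₁ :=
      Nat.mul_le_mul_right _ (by have := i.2; omega)
    have h3 : ((i : ℕ) + 1) * N₁ = (i : ℕ) * N₁ + N₁ := by ring
    have := x.2
    omega
  have hbl : ∀ (i j : Fin s) (x y : Fin N₁), i < j →
      (i : ℕ) * N₁ + (x : ℕ) < (j : ℕ) * N₁ + (y : ℕ) := by
    intro i j x y hij
    have h2 : ((i : ℕ) + 1) * N₁ ≤ (j : ℕ) * N₁ := Nat.mul_le_mul_right _ (Nat.succ_le_of_lt hij)
    have h3 : ((i : ℕ) + 1) * N₁ = (i : ℕ) * N₁ + N₁ := by ring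
    have := x.2
    omega
  let Q : (Fin s → Fin N₁) → Fin s → Fin N := fun w i =>
    ⟨(i : ℕ) * N₁ + (w i : ℕ), hlt i (w i)⟩
  have hQ : ∀ w, StrictMono (Q w) := by
    intro w i j hij
    exact Fin.mk_lt_mk.mpr (hbl i j _ _ hij)
  have hc : ∀ w : Option (Option (Fin s)) → Fin N₁, ∃ k, P (Fin.castLE hN₁ (w none))
      (Q fun i => w (some (some i))) (Fin.castLE hN₁ (w (some none))) k :=
    fun w => hP _ _ _ (hQ _)
  choose c hc using hc
  obtain ⟨j, e, he, hk⟩ := h₁ N₁ le_rfl c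
  refine ⟨j, Q fun i => e (some (some i)) 0, fun x => Fin.castLE hN₁ (e none x.castSucc),
    fun x => ⟨(j : ℕ) * N₁ + (e (some (some j)) x.castSucc : ℕ), hlt j _⟩,
    fun x => Fin.castLE hN₁ (e (some none) x.castSucc), ?_, ?_, ?_, ?_, ?_⟩
  · intro x y h
    exact he none (Fin.castSucc_lt_castSucc_iff.mpr h)
  · intro x y h
    have h2 : ((e (some (some j)) x.castSucc : Fin N₁) : ℕ) < e (some (some j)) y.castSucc :=
      he _ (Fin.castSucc_lt_castSucc_iff.mpr h)
    refine Fin.mk_lt_mk.mpr ?_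
    omega
  · intro x y h
    exact he (some none) (Fin.castSucc_lt_castSucc_iff.mpr h)
  · intro y
    have h1 : Function.update (Q fun i => e (some (some i)) 0) j
        ⟨(j : ℕ) * N₁ + (e (some (some j)) y.castSucc : ℕ), hlt j _⟩ =
        Q fun i => e (some (some i)) (if i = j then y.castSucc else 0) := by
      funext i
      by_cases h : i = j
      · subst h
        simp [Q]
      · simp [h, Q]
    rw [h1]
    exact hQ _
  · intro x y z
    have h1 : Function.update (Q fun i => e (some (some i)) 0) j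
        ⟨(j : ℕ) * N₁ + (e (some (some j)) y.castSucc : ℕ), hlt j _⟩ =
        Q fun i => e (some (some i)) (if i = j then y.castSucc else 0) := by
      funext i
      by_cases h : i = j
      · subst h
        simp [Q]
      · simp [h, Q]
    rw [h1]
    let W : Option (Option (Fin s)) → Fin (m + 1) := fun p =>
      p.elim x.castSucc fun q => q.elim z.castSucc fun i => if i = j then y.castSucc else 0
    have h2 := hc (fun p => e p (W p))
    rw [hk W] at h2
    exact h2

end Pool.Agent.Lib.MP_60829e_nt.ZB
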