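import Mathlib
import Pool.Agent.Lib.MP_60829e_nt.ZB.Ramsey

/-! # Monochromatic subgrids -/

namespace MP60829e.ZB

/-- A colouring of a large grid has a monochromatic subgrid of side `t`. Induction on the number of
directions, pigeonhole. (helper5) -/
theorem mono (I K : Type) [Fintype I] [Fintype K] (t : ℕ) : ∃ T : ℕ, t ≤ T ∧
    ∀ col : (I → Fin T) → K, ∃ e : I → Fin t → Fin T, (∀ i, Function.Injective (e i)) ∧
      ∀ u u' : I → Fin t, col (fun i => e i (u i)) = col (fun i => e i (u' i)) := by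
  obtain ⟨N₀, h₀⟩ := Pool.Agent.Lib.MP_60829e_nt.ZB.prod_ramsey (I := I) K t
  refine ⟨max t N₀, le_max_left _ _, fun col => ?_⟩
  obtain ⟨k, e, he, hk⟩ := h₀ (max t N₀) (le_max_right _ _) col
  exact ⟨e, fun i => (he i).injective, fun u u' => (hk u).trans (hk u').symm⟩

end MP60829e.ZB
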