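import Mathlib
import Pool.Agent.Lib.MP_60829e_nt.ZB.Ker
import Pool.Agent.Lib.MP_60829e_nt.ZB.Mono

/-! # Step 1: slices -/

open Module

namespace MP60829e.ZB

open MP60829e.ST (Qa Lsp Lt)

/-- In a grid of side `s`, `(h + 3 s) ^ 2 < s ^ 3`, some `f a b c` is in the span of the other
`f a' b' c` with the same `c`. -/
theorem slice_dep {h s : ℕ} (hs : (h + 3 * s) ^ 2 < s ^ 3) {V Th : Submodule Qa ℂ}
    {η ξ ζ : Fin s → ℂ} {f : Fin s → Fin s → Fin s → ℂ} (hV : KR V) [FiniteDimensional Qa Th]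
    (hh : finrank Qa Th ≤ h) (hc : Conf V Th s η ξ ζ f) :
    ∃ p : Fin s × Fin s × Fin s, f p.1 p.2.1 p.2.2 ∈ Submodule.span Qa
      ((fun q : Fin s × Fin s => f q.1 q.2 p.2.2) '' (Set.univ \ {(p.1, p.2.1)})) := by
  classical
  by_contra hcon
  push Not at hcon
  have hli : ∀ c, LinearIndependent Qa (fun q : Fin s × Fin s => f q.1 q.2 c) := by
    intro c
    rw [linearIndependent_iff_notMem_span]
    rintro ⟨a, b⟩
    exact hcon (a, b, c)
  set X : Submodule Qa ℂ := Th ⊔ Submodule.span Qa (Set.range (Sum.elim η (Sum.elim ξ ζ)))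
    with hX
  have hfd : FiniteDimensional Qa (Submodule.span Qa (Set.range (Sum.elim η (Sum.elim ξ ζ)))) :=
    FiniteDimensional.span_of_finite Qa (Set.finite_range _)
  have hXr : finrank Qa X ≤ h + 3 * s := by
    have h1 := Submodule.finrank_add_le_finrank_add_finrank Th
      (Submodule.span Qa (Set.range (Sum.elim η (Sum.elim ξ ζ))))
    have h2 := finrank_range_le_card (R := Qa) (Sum.elim η (Sum.elim ξ ζ))
    rw [Fintype.card_sum, Fintype.card_sum, Fintype.card_fin] at h2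
    have h3 : finrank Qa (Submodule.span Qa (Set.range (Sum.elim η (Sum.elim ξ ζ)))) ≤
        s + (s + s) := h2
    rw [hX]
    omega
  have hmem : ∀ o, Sum.elim η (Sum.elim ξ ζ) o ∈ X := fun o =>
    Submodule.mem_sup_right (Submodule.subset_span ⟨o, rfl⟩)
  obtain ⟨γ, hγ0, hγ⟩ := dep hV (le_sup_left : Th ≤ X) hXr
    (ι := Fin s × Fin s × Fin s) (fun p => f p.1 p.2.1 p.2.2)
    (fun p => η p.1 + ξ p.2.1 + ζ p.2.2) (fun p => hc.fV _ _ _)
    (fun p => X.add_mem (X.add_mem (hmem (Sum.inl p.1)) (hmem (Sum.inr (Sum.inl p.2.1))))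
      (hmem (Sum.inr (Sum.inr p.2.2)))) (fun p => hc.rel _ _ _) (by
      rw [Fintype.card_prod, Fintype.card_prod, Fintype.card_fin]
      calc (h + 3 * s) ^ 2 < s ^ 3 := hs
        _ = s * (s * s) := by ring)
  apply hγ0
  funext p
  obtain ⟨a0, b0, c0⟩ := p
  obtain ⟨φ, hφ0, hφ⟩ := exists_dual hc.ind
    (Sum.elim (fun _ => 0) (Sum.elim (fun _ => 0) (fun c => if c = c0 then 1 else 0)))
  have h1 := hγ φ hφ0
  have h2 : ∀ p : Fin s × Fin s × Fin s,
      φ (η p.1 + ξ p.2.1 + ζ p.2.2) = if p.2.2 = c0 then 1 else 0 := by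
    intro p
    have e1 := hφ (Sum.inl p.1)
    have e2 := hφ (Sum.inr (Sum.inl p.2.1))
    have e3 := hφ (Sum.inr (Sum.inr p.2.2))
    simp only [Sum.elim_inl, Sum.elim_inr] at e1 e2 e3
    rw [map_add, map_add, e1, e2, e3, zero_add, zero_add]
  have h3 : ∑ q : Fin s × Fin s, γ (q.1, q.2, c0) • f q.1 q.2 c0 = 0 := by
    rw [← h1]
    symm
    rw [Fintype.sum_prod_type, Fintype.sum_prod_type]
    refine Finset.sum_congr rfl fun a _ => ?_
    rw [Fintype.sum_prod_type]
    refine Finset.sum_congr rfl fun b _ => ?_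
    rw [Finset.sum_eq_single c0]
    · rw [h2, if_pos rfl, mul_one]
    · intro c _ hcc
      rw [h2, if_neg hcc, mul_zero, zero_smul]
    · intro hcc
      exact absurd (Finset.mem_univ _) hcc
  exact Fintype.linearIndependent_iff.1 (hli c0) (fun q => γ (q.1, q.2, c0)) h3 (a0, b0)

theorem arith (h : ℕ) : (h + 3 * (h + 17)) ^ 2 < (h + 17) ^ 3 := by
  have h1 : h + 3 * (h + 17) ≤ 4 * (h + 17) := by omega
  have h2 : (h + 3 * (h + 17)) ^ 2 ≤ (4 * (h + 17)) ^ 2 := Nat.pow_le_pow_left h1 2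
  have h3 : (4 * (h + 17)) ^ 2 < (h + 17) ^ 3 := by
    have h4 : 0 < (h + 17) ^ 2 := by positivity
    calc (4 * (h + 17)) ^ 2 = (h + 17) ^ 2 * 16 := by ring
      _ < (h + 17) ^ 2 * (h + 17) := Nat.mul_lt_mul_of_pos_left (by omega) h4
      _ = (h + 17) ^ 3 := by ring
  omega

/-- (helper35) -/
theorem stepA (h t : ℕ) : ∃ T : ℕ, ∀ (V Th : Submodule Qa ℂ) (η ξ ζ : Fin T → ℂ)
    (f : Fin T → Fin T → Fin T → ℂ), KR V → FiniteDimensional Qa Th → finrank Qa Th ≤ h →
    Conf V Th T η ξ ζ f → ∃ e1 e2 e3 : Fin t → Fin T, Function.Injective e1 ∧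
      Function.Injective e2 ∧ Function.Injective e3 ∧
      ∃ P D : Fin t → Fin t → Submodule Qa ℂ,
        (∀ a c, FiniteDimensional Qa (P a c) ∧ finrank Qa (P a c) ≤ h + 17 ∧ P a c ≤ V) ∧
        (∀ b c, FiniteDimensional Qa (D b c) ∧ finrank Qa (D b c) ≤ (h + 17) ^ 2 ∧ D b c ≤ V) ∧
        ∀ a b c, f (e1 a) (e2 b) (e3 c) ∈ P a c ⊔ D b c := by
  classical
  obtain ⟨s, hs⟩ : ∃ s, s = h + 17 := ⟨_, rfl⟩
  rw [← hs]
  have hsar : (h + 3 * s) ^ 2 < s ^ 3 := by
    rw [hs]
    exact arith h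
  obtain ⟨T', -, hT'⟩ := mono (Fin 3 × Fin s) (Fin s × Fin s × Fin s) (t + 1)
  refine ⟨s * T', fun V Th η ξ ζ f hV hTf hTh hc => ?_⟩
  -- the blocks
  obtain ⟨blk, hblk⟩ : ∃ blk : Fin s → Fin T' → Fin (s * T'),
      blk = fun i u => finProdFinEquiv (i, u) := ⟨_, rfl⟩
  have hinj : ∀ (d : Fin 3) (w : Fin 3 × Fin s → Fin T'),
      Function.Injective fun i => blk i (w (d, i)) := by
    intro d w i i' hii
    rw [hblk] at hii
    exact (Prod.mk.inj (finProdFinEquiv.injective hii)).1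
  have hdep : ∀ w : Fin 3 × Fin s → Fin T', ∃ p : Fin s × Fin s × Fin s,
      f (blk p.1 (w (0, p.1))) (blk p.2.1 (w (1, p.2.1))) (blk p.2.2 (w (2, p.2.2))) ∈
        Submodule.span Qa ((fun q : Fin s × Fin s =>
          f (blk q.1 (w (0, q.1))) (blk q.2 (w (1, q.2))) (blk p.2.2 (w (2, p.2.2)))) ''
            (Set.univ \ {(p.1, p.2.1)})) := by
    intro w
    exact slice_dep hsar hV hTh (hc.comp (hinj 0 w) (hinj 1 w) (hinj 2 w))
  choose col hcol using hdep
  obtain ⟨e, he, hmono⟩ := hT' col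
  obtain ⟨p0, hp0⟩ : ∃ p0, p0 = col (fun i => e i ((fun _ => 0 : Fin 3 × Fin s → Fin (t + 1)) i)) :=
    ⟨_, rfl⟩
  have hconst : ∀ u : Fin 3 × Fin s → Fin (t + 1), col (fun i => e i (u i)) = p0 := by
    intro u
    rw [hp0]
    exact hmono u _
  obtain ⟨i0, j0, l0⟩ := p0
  have hbi : ∀ i, Function.Injective (blk i) := by
    intro i u u' huu
    rw [hblk] at huu
    exact (Prod.mk.inj (finProdFinEquiv.injective huu)).2
  refine ⟨fun a => blk i0 (e (0, i0) a.castSucc), fun b => blk j0 (e (1, j0) b.castSucc),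
    fun c => blk l0 (e (2, l0) c.castSucc), ?_, ?_, ?_, ?_⟩
  · exact (hbi i0).comp ((he _).comp (Fin.castSucc_injective t))
  · exact (hbi j0).comp ((he _).comp (Fin.castSucc_injective t))
  · exact (hbi l0).comp ((he _).comp (Fin.castSucc_injective t))
  obtain ⟨Pf, hPf⟩ : ∃ Pf : Fin t → Fin t → Fin s → ℂ, Pf = fun a c j =>
      f (blk i0 (e (0, i0) a.castSucc)) (blk j (e (1, j) 0)) (blk l0 (e (2, l0) c.castSucc)) :=
    ⟨_, rfl⟩
  obtain ⟨Df, hDf⟩ : ∃ Df : Fin t → Fin t → Fin s × Fin s → ℂ, Df = fun b c q =>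
      f (blk q.1 (e (0, q.1) 0))
        (if q.2 = j0 then blk j0 (e (1, j0) b.castSucc) else blk q.2 (e (1, q.2) 0))
        (blk l0 (e (2, l0) c.castSucc)) :=
    ⟨_, rfl⟩
  refine ⟨fun a c => Submodule.span Qa (Set.range (Pf a c)),
    fun b c => Submodule.span Qa (Set.range (Df b c)), ?_, ?_, ?_⟩
  · intro a c
    refine ⟨FiniteDimensional.span_of_finite Qa (Set.finite_range _), ?_, ?_⟩
    · have h1 := finrank_range_le_card (R := Qa) (Pf a c)
      rwa [Fintype.card_fin] at h1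
    · rw [Submodule.span_le]
      rintro _ ⟨j, rfl⟩
      rw [hPf]
      exact hc.fV _ _ _
  · intro b c
    refine ⟨FiniteDimensional.span_of_finite Qa (Set.finite_range _), ?_, ?_⟩
    · have h1 := finrank_range_le_card (R := Qa) (Df b c)
      rw [Fintype.card_prod, Fintype.card_fin] at h1
      rw [pow_two]
      exact h1
    · rw [Submodule.span_le]
      rintro _ ⟨j, rfl⟩
      rw [hDf]
      exact hc.fV _ _ _
  · intro a b c
    -- the choice of the coordinates
    obtain ⟨u, hu⟩ : ∃ u : Fin 3 × Fin s → Fin (t + 1), u = fun o =>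
        if o = (0, i0) then a.castSucc else if o = (1, j0) then b.castSucc
          else if o = (2, l0) then c.castSucc else 0 := ⟨_, rfl⟩
    have u0 : ∀ i, u (0, i) = if i = i0 then a.castSucc else 0 := by
      intro i
      rw [hu]
      by_cases hi : i = i0
      · simp [hi]
      · simp [hi]
    have u1 : ∀ j, u (1, j) = if j = j0 then b.castSucc else 0 := by
      intro j
      rw [hu]
      by_cases hj : j = j0
      · simp [hj]
      · simp [hj]
    have u2 : u (2, l0) = c.castSucc := by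
      rw [hu]
      simp
    have h1 := hcol (fun i => e i (u i))
    rw [hconst u] at h1
    simp only [u0, u1, u2, if_true] at h1
    refine Submodule.span_le.2 ?_ h1
    rintro _ ⟨⟨i, j⟩, hq, rfl⟩
    have hq' : ¬ (i = i0 ∧ j = j0) := by
      rintro ⟨rfl, rfl⟩
      exact hq.2 rfl
    simp only
    by_cases hi : i = i0
    · have hj : j ≠ j0 := fun hj => hq' ⟨hi, hj⟩
      refine Submodule.mem_sup_left (Submodule.subset_span ⟨j, ?_⟩)
      rw [hPf]
      subst hi
      simp only [if_true, if_neg hj]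
    · refine Submodule.mem_sup_right (Submodule.subset_span ⟨(i, j), ?_⟩)
      rw [hDf]
      simp only [if_neg hi]
      by_cases hj : j = j0
      · subst hj
        simp only [if_true]
      · simp only [if_neg hj]

end MP60829e.ZB
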