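import Mathlib
import Pool.Agent.Lib.MP_60829e_nt.ZB.Ker
import Pool.Agent.Lib.MP_60829e_nt.ZB.Mono

/-! # Step 2: the space `P a c` becomes the line of `η a` -/

open Module

namespace MP60829e.ZB

open MP60829e.ST (Qa Lsp Lt)

theorem finrank_iSup_le {M d : ℕ} (S : Fin M → Submodule Qa ℂ)
    (hf : ∀ j, FiniteDimensional Qa (S j)) (hS : ∀ j, finrank Qa (S j) ≤ d) :
    FiniteDimensional Qa (⨆ j, S j : Submodule Qa ℂ) ∧
      finrank Qa (⨆ j, S j : Submodule Qa ℂ) ≤ M * d := by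
  classical
  have key : ∀ s : Finset (Fin M), FiniteDimensional Qa (s.sup S : Submodule Qa ℂ) ∧
      finrank Qa (s.sup S : Submodule Qa ℂ) ≤ s.card * d := by
    intro s
    induction s using Finset.induction_on with
    | empty =>
      rw [Finset.sup_empty]
      exact ⟨inferInstance, by simp⟩
    | insert j s hj ih =>
      obtain ⟨h1, h2⟩ := ih
      have h3 := hf j
      rw [Finset.sup_insert, Finset.card_insert_of_notMem hj]
      refine ⟨inferInstance, ?_⟩
      have h4 := Submodule.finrank_add_le_finrank_add_finrank (S j) (s.sup S)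
      have h5 := hS j
      calc finrank Qa (S j ⊔ s.sup S : Submodule Qa ℂ)
          ≤ finrank Qa (S j) + finrank Qa (s.sup S : Submodule Qa ℂ) := h4
        _ ≤ d + s.card * d := by omega
        _ = (s.card + 1) * d := by ring
  have h1 := key Finset.univ
  rw [Finset.sup_univ_eq_iSup, Finset.card_univ, Fintype.card_fin] at h1
  exact h1

/-- The differences `ξ (b j) + ζ c` are independent modulo `Th`. -/
theorem ind_z {Th : Submodule Qa ℂ} {T M : ℕ} {η ξ ζ : Fin T → ℂ}
    (h : Ind Th (Sum.elim η (Sum.elim ξ ζ))) {b : Fin M → Fin T} (hb : Function.Injective b)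
    (c : Fin T) : Ind Th (fun j => ξ (b j) + ζ c) := by
  classical
  unfold Ind
  rw [Fintype.linearIndependent_iff]
  intro g hg j
  obtain ⟨φ, hφ0, hφ⟩ := exists_dual h
    (Sum.elim (fun _ => 0) (Sum.elim (fun o => if o = b j then 1 else 0) (fun _ => 0)))
  have h1 : (∑ i, g i • (ξ (b i) + ζ c)) ∈ Th := by
    rw [← Submodule.Quotient.mk_eq_zero Th, ← Submodule.mkQ_apply, map_sum]
    simpa using hg
  have h2 := hφ0 _ h1
  have e2 : ∀ i, φ (ξ (b i)) = if i = j then 1 else 0 := by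
    intro i
    have h3 := hφ (Sum.inr (Sum.inl (b i)))
    simp only [Sum.elim_inl, Sum.elim_inr] at h3
    rw [h3]
    by_cases hij : i = j
    · rw [if_pos hij, if_pos (congrArg b hij)]
    · rw [if_neg hij, if_neg fun h' => hij (hb h')]
  have e3 : φ (ζ c) = 0 := by
    have h3 := hφ (Sum.inr (Sum.inr c))
    simpa using h3
  rw [map_sum, Finset.sum_eq_single j] at h2
  · rw [map_smul, map_add, e2, e3, if_pos rfl, add_zero, smul_eq_mul, mul_one] at h2
    exact h2
  · intro i _ hij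
    rw [map_smul, map_add, e2, e3, if_neg hij, add_zero, smul_zero]
  · intro hj
    exact absurd (Finset.mem_univ j) hj

/-- The elimination. -/
theorem coreB {h m d : ℕ} {V Th : Submodule Qa ℂ} (hV : KR V) [FiniteDimensional Qa Th]
    (hTh : finrank Qa Th ≤ h) {z : Fin (m + 1) → ℂ} (hz : Ind Th z)
    {D : Fin (m + 1) → Submodule Qa ℂ}
    (hD : ∀ j, FiniteDimensional Qa (D j) ∧ finrank Qa (D j) ≤ d ∧ D j ≤ V) :
    ∃ W : Submodule Qa ℂ, FiniteDimensional Qa W ∧
      finrank Qa W ≤ 1 + (m + 1) * (h + (m + 1) * (1 + d + d)) ^ 2 ∧ W ≤ V ∧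
      ∀ (η : ℂ) (P : Submodule Qa ℂ) (f : Fin (m + 1) → ℂ), η ∈ V → FiniteDimensional Qa P →
        finrank Qa P ≤ m → P ≤ V → (∀ j, f j ∈ P ⊔ D j) → (∀ j, f j * (η + z j) ∈ Th * V) →
        ∃ j, f j ∈ Submodule.span Qa {η} ⊔ (D j ⊔ W) := by
  classical
  -- the space of the second factors
  obtain ⟨S, hS⟩ : ∃ S : Fin (m + 1) → Submodule Qa ℂ, S = fun j =>
      (Submodule.span Qa {z j} ⊔ D j) ⊔ (D j).map (LinearMap.mulLeft Qa (z j)) := ⟨_, rfl⟩
  have hSf : ∀ j, FiniteDimensional Qa (S j) := by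
    intro j
    have h1 := (hD j).1
    rw [hS]
    infer_instance
  have hSr : ∀ j, finrank Qa (S j) ≤ 1 + d + d := by
    intro j
    have h1 := (hD j).1
    have h2 := (hD j).2.1
    have h3 := Submodule.finrank_add_le_finrank_add_finrank (Submodule.span Qa {z j}) (D j)
    have h4 := Submodule.finrank_add_le_finrank_add_finrank (Submodule.span Qa {z j} ⊔ D j)
      ((D j).map (LinearMap.mulLeft Qa (z j)))
    have h5 := Submodule.finrank_map_le (LinearMap.mulLeft Qa (z j)) (D j)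
    have h6 : finrank Qa (Submodule.span Qa {z j}) ≤ 1 :=
      (finrank_span_le_card _).trans (by simp)
    rw [hS]
    calc finrank Qa ((Submodule.span Qa {z j} ⊔ D j) ⊔
          (D j).map (LinearMap.mulLeft Qa (z j)) : Submodule Qa ℂ)
        ≤ finrank Qa (Submodule.span Qa {z j} ⊔ D j : Submodule Qa ℂ) +
          finrank Qa ((D j).map (LinearMap.mulLeft Qa (z j))) := h4
      _ ≤ (finrank Qa (Submodule.span Qa {z j}) + finrank Qa (D j)) + finrank Qa (D j) := by
          omega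
      _ ≤ 1 + d + d := by omega
  obtain ⟨hXf, hXr⟩ := finrank_iSup_le S hSf hSr
  obtain ⟨X, hX⟩ : ∃ X : Submodule Qa ℂ, X = Th ⊔ ⨆ j, S j := ⟨_, rfl⟩
  have hXfd : FiniteDimensional Qa X := by
    rw [hX]
    infer_instance
  have hXd : finrank Qa X ≤ h + (m + 1) * (1 + d + d) := by
    have h1 := Submodule.finrank_add_le_finrank_add_finrank Th (⨆ j, S j)
    rw [hX]
    omega
  have hTX : Th ≤ X := by
    rw [hX]
    exact le_sup_left
  have hSX : ∀ j, S j ≤ X := by
    intro j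
    rw [hX]
    exact (le_iSup S j).trans le_sup_right
  have hzX : ∀ j, z j ∈ X := by
    intro j
    apply hSX j
    rw [hS]
    exact Submodule.mem_sup_left (Submodule.mem_sup_left (Submodule.mem_span_singleton_self _))
  have huX : ∀ j, ∀ u ∈ D j, u ∈ X := by
    intro j u hu
    apply hSX j
    rw [hS]
    exact Submodule.mem_sup_left (Submodule.mem_sup_right hu)
  have huzX : ∀ j, ∀ u ∈ D j, z j * u ∈ X := by
    intro j u hu
    apply hSX j
    rw [hS]
    exact Submodule.mem_sup_right ⟨u, hu, rfl⟩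
  -- the functionals
  have hφ : ∀ j, ∃ φ : Dual Qa ℂ, (∀ y ∈ Th, φ y = 0) ∧ ∀ i, φ (z i) = if i = j then 1 else 0 :=
    fun j => exists_dual hz _
  choose φ hφ0 hφz using hφ
  choose W0 hW0f hW0r hW0V hW0 using fun j => slice hV hTX hXd (φ j) (hφ0 j)
  obtain ⟨hWf, hWr⟩ := finrank_iSup_le W0 hW0f hW0r
  refine ⟨Submodule.span Qa {1} ⊔ ⨆ j, W0 j, inferInstance, ?_, ?_, ?_⟩
  · have h1 := Submodule.finrank_add_le_finrank_add_finrank (Submodule.span Qa {(1 : ℂ)})
      (⨆ j, W0 j)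
    have h2 : finrank Qa (Submodule.span Qa {(1 : ℂ)}) ≤ 1 :=
      (finrank_span_le_card _).trans (by simp)
    omega
  · refine sup_le ?_ (iSup_le hW0V)
    rw [Submodule.span_singleton_le_iff_mem]
    exact hV.1
  intro η P f hη hPf hPr hPV hf hrel
  have hdec : ∀ j, ∃ p ∈ P, ∃ u ∈ D j, p + u = f j := fun j => Submodule.mem_sup.1 (hf j)
  choose p hp u hu hpu using hdec
  -- the relation
  have hdep : ¬ LinearIndependent Qa (fun j => (⟨p j, hp j⟩ : P)) := by
    intro hli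
    have h1 := hli.fintype_card_le_finrank
    rw [Fintype.card_fin] at h1
    omega
  rw [Fintype.not_linearIndependent_iff] at hdep
  obtain ⟨g, hg, j0, hj0⟩ := hdep
  have hg' : ∑ j, g j • p j = 0 := by
    have h1 := congrArg (P.subtype) hg
    rw [map_sum, map_zero] at h1
    exact h1
  obtain ⟨v, hv⟩ : ∃ v : Fin (m + 1) × Fin 3 → ℂ, v = fun o =>
      if o.2 = 0 then g o.1 • p o.1 else if o.2 = 1 then η else 1 := ⟨_, rfl⟩
  obtain ⟨x, hx⟩ : ∃ x : Fin (m + 1) × Fin 3 → ℂ, x = fun o =>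
      if o.2 = 0 then z o.1 else if o.2 = 1 then g o.1 • u o.1 else g o.1 • (z o.1 * u o.1) :=
    ⟨_, rfl⟩
  have h10 : (1 : Fin 3) ≠ 0 := by decide
  have h20 : (2 : Fin 3) ≠ 0 := by decide
  have h21 : (2 : Fin 3) ≠ 1 := by decide
  have hsum : ∀ F : Fin (m + 1) × Fin 3 → ℂ, ∑ o, F o = ∑ j, (F (j, 0) + F (j, 1) + F (j, 2)) := by
    intro F
    rw [Fintype.sum_prod_type]
    exact Finset.sum_congr rfl fun j _ => Fin.sum_univ_three _
  have h1 := hW0 j0 Finset.univ v x (by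
    rintro ⟨j, o⟩ _
    rw [hv]
    simp only
    split_ifs
    · exact V.smul_mem _ (hPV (hp j))
    · exact hη
    · exact hV.1) (by
    rintro ⟨j, o⟩ _
    rw [hx]
    simp only
    split_ifs
    · exact hzX j
    · exact X.smul_mem _ (huX j _ (hu j))
    · exact X.smul_mem _ (huzX j _ (hu j))) (by
    have h2 : ∑ o, v o * x o = ∑ j, g j • (f j * (η + z j)) := by
      rw [hsum]
      have h3 : ∑ j, g j • (f j * (η + z j)) =
          ∑ j, (v (j, 0) * x (j, 0) + v (j, 1) * x (j, 1) + v (j, 2) * x (j, 2)) +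
            (∑ j, g j • p j) * η := by
        rw [Finset.sum_mul, ← Finset.sum_add_distrib]
        refine Finset.sum_congr rfl fun j _ => ?_
        rw [hv, hx, ← hpu j]
        simp only [if_true, if_neg h10, if_neg h20, if_neg h21, Algebra.smul_def]
        ring
      rw [h3, hg', zero_mul, add_zero]
    rw [h2]
    exact Submodule.sum_mem _ fun j _ => Submodule.smul_mem _ _ (hrel j))
  rw [hsum] at h1
  have h2 : ∑ j, (φ j0 (x (j, 0)) • v (j, 0) + φ j0 (x (j, 1)) • v (j, 1) +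
      φ j0 (x (j, 2)) • v (j, 2)) =
      g j0 • p j0 + (∑ j, φ j0 (x (j, 1))) • η + (∑ j, φ j0 (x (j, 2))) • (1 : ℂ) := by
    rw [Finset.sum_add_distrib, Finset.sum_add_distrib, Finset.sum_smul, Finset.sum_smul]
    congr 1
    · congr 1
      · rw [Finset.sum_eq_single j0]
        · rw [hx, hv]
          simp only [if_true]
          rw [hφz, if_pos rfl, one_smul]
        · intro j _ hj
          rw [hx, hv]
          simp only [if_true]
          rw [hφz, if_neg hj, zero_smul]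
        · intro hj
          exact absurd (Finset.mem_univ _) hj
      · refine Finset.sum_congr rfl fun j _ => ?_
        rw [hv]
        simp only [if_neg h10, if_true]
    · refine Finset.sum_congr rfl fun j _ => ?_
      rw [hv]
      simp only [if_neg h20, if_neg h21]
  rw [h2] at h1
  refine ⟨j0, ?_⟩
  set α := ∑ j, φ j0 (x (j, 1)) with hα
  set β := ∑ j, φ j0 (x (j, 2)) with hβ
  have h3 : p j0 = (g j0)⁻¹ • (g j0 • p j0 + α • η + β • (1 : ℂ)) -
      ((g j0)⁻¹ * α) • η - ((g j0)⁻¹ * β) • (1 : ℂ) := by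
    rw [smul_add, smul_add, smul_smul, smul_smul, smul_smul, inv_mul_cancel₀ hj0, one_smul]
    ring
  rw [← hpu j0, h3]
  have hη' : η ∈ Submodule.span Qa {η} ⊔ (D j0 ⊔ (Submodule.span Qa {(1 : ℂ)} ⊔ ⨆ j, W0 j)) :=
    Submodule.mem_sup_left (Submodule.mem_span_singleton_self _)
  have h1' : (1 : ℂ) ∈ Submodule.span Qa {η} ⊔ (D j0 ⊔ (Submodule.span Qa {(1 : ℂ)} ⊔
      ⨆ j, W0 j)) :=
    Submodule.mem_sup_right (Submodule.mem_sup_right (Submodule.mem_sup_left
      (Submodule.mem_span_singleton_self _)))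
  have hw' : g j0 • p j0 + α • η + β • (1 : ℂ) ∈ Submodule.span Qa {η} ⊔
      (D j0 ⊔ (Submodule.span Qa {(1 : ℂ)} ⊔ ⨆ j, W0 j)) :=
    Submodule.mem_sup_right (Submodule.mem_sup_right (Submodule.mem_sup_right
      (Submodule.mem_iSup_of_mem j0 h1)))
  refine Submodule.add_mem _ (Submodule.sub_mem _ (Submodule.sub_mem _
    (Submodule.smul_mem _ _ hw') (Submodule.smul_mem _ _ hη')) (Submodule.smul_mem _ _ h1')) ?_
  exact Submodule.mem_sup_right (Submodule.mem_sup_left (hu j0))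

/-- **Step 2**, the dimension `D0` does not depend on `t`. -/
theorem stepB' (h m d : ℕ) : ∃ D0 : ℕ, ∀ t : ℕ, ∃ T : ℕ, ∀ (V Th : Submodule Qa ℂ) (η ξ ζ : Fin T → ℂ)
    (f : Fin T → Fin T → Fin T → ℂ) (P D : Fin T → Fin T → Submodule Qa ℂ), KR V →
    FiniteDimensional Qa Th → finrank Qa Th ≤ h → Conf V Th T η ξ ζ f →
    (∀ a c, FiniteDimensional Qa (P a c) ∧ finrank Qa (P a c) ≤ m ∧ P a c ≤ V) →
    (∀ b c, FiniteDimensional Qa (D b c) ∧ finrank Qa (D b c) ≤ d ∧ D b c ≤ V) →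
    (∀ a b c, f a b c ∈ P a c ⊔ D b c) →
    ∃ e1 e2 e3 : Fin t → Fin T, Function.Injective e1 ∧ Function.Injective e2 ∧
      Function.Injective e3 ∧ ∃ D' : Fin t → Fin t → Submodule Qa ℂ,
        (∀ b c, FiniteDimensional Qa (D' b c) ∧ finrank Qa (D' b c) ≤ D0 ∧ D' b c ≤ V) ∧
        ∀ a b c, f (e1 a) (e2 b) (e3 c) ∈ Submodule.span Qa {η (e1 a)} ⊔ D' b c := by
  classical
  refine ⟨d + (1 + (m + 1) * (h + (m + 1) * (1 + d + d)) ^ 2), fun t => ?_⟩
  obtain ⟨T', -, hT'⟩ := mono (Fin (m + 1) ⊕ Fin 2) (Fin (m + 1)) (t + 1)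
  refine ⟨(m + 1) * T', ?_⟩
  intro V Th η ξ ζ f P D hV hTf hTh hc hP hD hfPD
  -- the blocks
  obtain ⟨blk, hblk⟩ : ∃ blk : Fin (m + 1) → Fin T' → Fin ((m + 1) * T'),
      blk = fun i u => finProdFinEquiv (i, u) := ⟨_, rfl⟩
  have hbi : ∀ i, Function.Injective (blk i) := by
    intro i u u' huu
    rw [hblk] at huu
    exact (Prod.mk.inj (finProdFinEquiv.injective huu)).2
  have hinj : ∀ w : Fin (m + 1) → Fin T', Function.Injective fun i => blk i (w i) := by
    intro w i i' hii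
    rw [hblk] at hii
    exact (Prod.mk.inj (finProdFinEquiv.injective hii)).1
  -- the spaces
  choose W hWf hWr hWV hW using fun (w : Fin (m + 1) → Fin T') (c : Fin T') =>
    coreB (m := m) (d := d) hV hTh (ind_z hc.ind (hinj w) (blk 0 c))
      (D := fun j => D (blk j (w j)) (blk 0 c)) (fun j => hD _ _)
  -- the colouring
  have hcol : ∀ w : Fin (m + 1) ⊕ Fin 2 → Fin T', ∃ j : Fin (m + 1),
      f (blk 0 (w (Sum.inr 0))) (blk j (w (Sum.inl j))) (blk 0 (w (Sum.inr 1))) ∈
        Submodule.span Qa {η (blk 0 (w (Sum.inr 0)))} ⊔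
          (D (blk j (w (Sum.inl j))) (blk 0 (w (Sum.inr 1))) ⊔
            W (fun i => w (Sum.inl i)) (w (Sum.inr 1))) := by
    intro w
    refine hW (fun i => w (Sum.inl i)) (w (Sum.inr 1)) (η (blk 0 (w (Sum.inr 0))))
      (P (blk 0 (w (Sum.inr 0))) (blk 0 (w (Sum.inr 1))))
      (fun j => f (blk 0 (w (Sum.inr 0))) (blk j (w (Sum.inl j))) (blk 0 (w (Sum.inr 1))))
      (hc.mη _) (hP _ _).1 (hP _ _).2.1 (hP _ _).2.2 (fun j => hfPD _ _ _) (fun j => ?_)
    have h1 := hc.rel (blk 0 (w (Sum.inr 0))) (blk j (w (Sum.inl j))) (blk 0 (w (Sum.inr 1)))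
    rw [add_assoc] at h1
    exact h1
  choose col hcol' using hcol
  obtain ⟨e, he, hmono⟩ := hT' col
  obtain ⟨j0, hj0⟩ : ∃ j0, j0 = col (fun i => e i ((fun _ => 0 : Fin (m + 1) ⊕ Fin 2 →
      Fin (t + 1)) i)) := ⟨_, rfl⟩
  have hconst : ∀ u : Fin (m + 1) ⊕ Fin 2 → Fin (t + 1), col (fun i => e i (u i)) = j0 := by
    intro u
    rw [hj0]
    exact hmono u _
  refine ⟨fun a => blk 0 (e (Sum.inr 0) a.castSucc), fun b => blk j0 (e (Sum.inl j0) b.castSucc),
    fun c => blk 0 (e (Sum.inr 1) c.castSucc), ?_, ?_, ?_, ?_⟩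
  · exact (hbi _).comp ((he _).comp (Fin.castSucc_injective t))
  · exact (hbi _).comp ((he _).comp (Fin.castSucc_injective t))
  · exact (hbi _).comp ((he _).comp (Fin.castSucc_injective t))
  refine ⟨fun b c => D (blk j0 (e (Sum.inl j0) b.castSucc)) (blk 0 (e (Sum.inr 1) c.castSucc)) ⊔
    W (fun i => e (Sum.inl i) (if i = j0 then b.castSucc else 0)) (e (Sum.inr 1) c.castSucc),
    fun b c => ?_, fun a b c => ?_⟩
  · obtain ⟨h1, h2, h3⟩ := hD (blk j0 (e (Sum.inl j0) b.castSucc))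
      (blk 0 (e (Sum.inr 1) c.castSucc))
    have h4 := hWf (fun i => e (Sum.inl i) (if i = j0 then b.castSucc else 0))
      (e (Sum.inr 1) c.castSucc)
    have h5 := hWr (fun i => e (Sum.inl i) (if i = j0 then b.castSucc else 0))
      (e (Sum.inr 1) c.castSucc)
    refine ⟨inferInstance, ?_, sup_le h3 (hWV _ _)⟩
    exact (Submodule.finrank_add_le_finrank_add_finrank _ _).trans (add_le_add h2 h5)
  · obtain ⟨u, hu⟩ : ∃ u : Fin (m + 1) ⊕ Fin 2 → Fin (t + 1), u =
        Sum.elim (fun i => if i = j0 then b.castSucc else 0)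
          (fun o => if o = 0 then a.castSucc else c.castSucc) := ⟨_, rfl⟩
    have u0 : ∀ i, u (Sum.inl i) = if i = j0 then b.castSucc else 0 := by
      intro i
      rw [hu]
      rfl
    have u1 : u (Sum.inr 0) = a.castSucc := by
      rw [hu]
      simp
    have u2 : u (Sum.inr 1) = c.castSucc := by
      rw [hu]
      simp
    have h1 := hcol' (fun i => e i (u i))
    rw [hconst u] at h1
    simp only [u0, u1, u2, if_true] at h1
    exact h1

end MP60829e.ZB
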