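import Mathlib
import Pool.Agent.Lib.MP_60829e_nt.ZB.Ker

/-! # Step 3: the contradiction -/

open Module

namespace MP60829e.ZB

open MP60829e.ST (Qa Lsp Lt)

/-- Differences of an independent family. -/
theorem li_sub {W : Type} [AddCommGroup W] [Module Qa W] {M : ℕ} {v : Fin (M + 1) → W}
    (hv : LinearIndependent Qa v) : LinearIndependent Qa fun b : Fin M => v b.succ - v 0 := by
  rw [Fintype.linearIndependent_iff] at hv ⊢
  intro g hg i
  have h1 := hv (Fin.cons (-∑ b, g b) g) (by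
    rw [Fin.sum_univ_succ]
    simp only [Fin.cons_zero, Fin.cons_succ]
    rw [← hg, neg_smul, Finset.sum_smul, ← Finset.sum_neg_distrib, ← Finset.sum_add_distrib]
    refine Finset.sum_congr rfl fun b _ => ?_
    rw [smul_sub]
    abel) i.succ
  rwa [Fin.cons_succ] at h1

theorem finrank_sup_le (A B : Submodule Qa ℂ) [FiniteDimensional Qa A] [FiniteDimensional Qa B]
    {a b : ℕ} (hA : finrank Qa A ≤ a) (hB : finrank Qa B ≤ b) :
    finrank Qa ↥(A ⊔ B) ≤ a + b :=
  (Submodule.finrank_add_le_finrank_add_finrank A B).trans (add_le_add hA hB)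

/-- (a) few `a` have `f (a, w) ∈ D' w`. -/
theorem three_a {V Th : Submodule Qa ℂ} (hV : KR V) [FiniteDimensional Qa Th] {h D0 : ℕ}
    (hh : finrank Qa Th ≤ h) {ι : Type} [Fintype ι] (η g : ι → ℂ) (z : ℂ)
    (hη : ∀ a, η a ∈ V) (hind : Ind (Submodule.span Qa {(1 : ℂ)}) η) (D : Submodule Qa ℂ)
    [FiniteDimensional Qa D] (hD : finrank Qa D ≤ D0) (hg : ∀ a, g a ∈ D) (hgT : ∀ a, g a ∉ Th)
    (hrel : ∀ a, g a * (η a + z) ∈ Th * V) : Fintype.card ι ≤ (h + 2 * D0) ^ 2 := by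
  have hm : ∀ a, g a * z ∈ D.map (LinearMap.mulRight Qa z) := fun a =>
    ⟨g a, hg a, rfl⟩
  refine key (X := Th ⊔ D ⊔ D.map (LinearMap.mulRight Qa z)) hV
    (le_sup_of_le_left le_sup_left) ?_ η g (fun a => g a * z) hη hind
    (fun a => Submodule.mem_sup_left (Submodule.mem_sup_right (hg a))) hgT
    (fun a => Submodule.mem_sup_right (hm a)) fun a => ?_
  · have h1 := finrank_sup_le (Th ⊔ D) (D.map (LinearMap.mulRight Qa z))
      (finrank_sup_le Th D hh hD) ((Submodule.finrank_map_le _ _).trans hD)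
    omega
  · have h1 : η a * g a + g a * z = g a * (η a + z) := by ring
    rw [h1]
    exact hrel a

/-- (b) few `a` have `β + z - (β' + z') ∉ Th`. -/
theorem three_b {V Th : Submodule Qa ℂ} (hV : KR V) [FiniteDimensional Qa Th] {h D0 : ℕ}
    (hh : finrank Qa Th ≤ h) {ι : Type} [Fintype ι] (η β β' : ι → ℂ) (z z' : ℂ)
    (hη : ∀ a, η a ∈ V) (hind : Ind (Submodule.span Qa {(1 : ℂ)}) η) (D D' : Submodule Qa ℂ)
    [FiniteDimensional Qa D] [FiniteDimensional Qa D'] (hD : finrank Qa D ≤ D0)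
    (hD' : finrank Qa D' ≤ D0) (hβ : ∀ a, β a ∈ D) (hβ' : ∀ a, β' a ∈ D')
    (hT : ∀ a, β a + z - (β' a + z') ∉ Th) (hrel : ∀ a, (η a + β a) * (η a + z) ∈ Th * V)
    (hrel' : ∀ a, (η a + β' a) * (η a + z') ∈ Th * V) :
    Fintype.card ι ≤ (h + 4 * D0 + 2) ^ 2 := by
  classical
  have hm : ∀ a, β a * z ∈ D.map (LinearMap.mulRight Qa z) := fun a =>
    ⟨β a, hβ a, rfl⟩
  have hm' : ∀ a, β' a * z' ∈ D'.map (LinearMap.mulRight Qa z') := fun a =>
    ⟨β' a, hβ' a, rfl⟩
  have hz : FiniteDimensional Qa (Submodule.span Qa {z}) := FiniteDimensional.span_singleton Qa z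
  have hz' : FiniteDimensional Qa (Submodule.span Qa {z'}) := FiniteDimensional.span_singleton Qa z'
  have hz1 : finrank Qa (Submodule.span Qa {z}) ≤ 1 := by
    refine (finrank_span_le_card _).trans ?_
    simp
  have hz1' : finrank Qa (Submodule.span Qa {z'}) ≤ 1 := by
    refine (finrank_span_le_card _).trans ?_
    simp
  refine key (X := Th ⊔ (D ⊔ D.map (LinearMap.mulRight Qa z) ⊔ Submodule.span Qa {z}) ⊔
    (D' ⊔ D'.map (LinearMap.mulRight Qa z') ⊔ Submodule.span Qa {z'})) hV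
    (le_sup_of_le_left le_sup_left) ?_ η (fun a => β a + z - (β' a + z'))
    (fun a => β a * z - β' a * z') hη hind (fun a => ?_) hT (fun a => ?_) fun a => ?_
  · have h1 := finrank_sup_le (D ⊔ D.map (LinearMap.mulRight Qa z)) (Submodule.span Qa {z})
      (finrank_sup_le D _ hD ((Submodule.finrank_map_le _ _).trans hD)) hz1
    have h1' := finrank_sup_le (D' ⊔ D'.map (LinearMap.mulRight Qa z')) (Submodule.span Qa {z'})
      (finrank_sup_le D' _ hD' ((Submodule.finrank_map_le _ _).trans hD')) hz1'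
    have h2 := finrank_sup_le _ _ (finrank_sup_le _ _ hh h1) h1'
    omega
  · refine Submodule.sub_mem _ ?_ ?_
    · refine Submodule.mem_sup_left (Submodule.mem_sup_right (Submodule.add_mem _ ?_ ?_))
      · exact Submodule.mem_sup_left (Submodule.mem_sup_left (hβ a))
      · exact Submodule.mem_sup_right (Submodule.mem_span_singleton_self z)
    · refine Submodule.mem_sup_right (Submodule.add_mem _ ?_ ?_)
      · exact Submodule.mem_sup_left (Submodule.mem_sup_left (hβ' a))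
      · exact Submodule.mem_sup_right (Submodule.mem_span_singleton_self z')
  · refine Submodule.sub_mem _ ?_ ?_
    · exact Submodule.mem_sup_left (Submodule.mem_sup_right
        (Submodule.mem_sup_left (Submodule.mem_sup_right (hm a))))
    · exact Submodule.mem_sup_right (Submodule.mem_sup_left (Submodule.mem_sup_right (hm' a)))
  · have h1 : η a * (β a + z - (β' a + z')) + (β a * z - β' a * z') =
        (η a + β a) * (η a + z) - (η a + β' a) * (η a + z') := by ring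
    rw [h1]
    exact Submodule.sub_mem _ (hrel a) (hrel' a)

/-- (helper65) `f (a, w) ∈ Qa η a + D' w`, `w = (b, c)`. -/
theorem three (h D0 : ℕ) : ∃ T : ℕ, ∀ (V Th : Submodule Qa ℂ) (η ξ ζ : Fin T → ℂ)
    (f : Fin T → Fin T → Fin T → ℂ) (D' : Fin T → Fin T → Submodule Qa ℂ), KR V →
    FiniteDimensional Qa Th → finrank Qa Th ≤ h → Conf V Th T η ξ ζ f →
    (∀ b c, FiniteDimensional Qa (D' b c) ∧ finrank Qa (D' b c) ≤ D0 ∧ D' b c ≤ V) →
    (∀ a b c, f a b c ∈ Submodule.span Qa {η a} ⊔ D' b c) → False := by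
  classical
  obtain ⟨M, hM⟩ : ∃ M : ℕ, M = (h + 1) ^ 2 + 1 := ⟨_, rfl⟩
  obtain ⟨Nb, hNb⟩ : ∃ Nb : ℕ, Nb = (h + 4 * D0 + 2) ^ 2 := ⟨_, rfl⟩
  refine ⟨(M + 1) * 2 * (Nb + Nb) + (M + 3), ?_⟩
  intro V Th η ξ ζ f D' hV hTf hh hC hD hf
  obtain ⟨T, hT⟩ : ∃ T : ℕ, T = (M + 1) * 2 * (Nb + Nb) + (M + 3) := ⟨_, rfl⟩
  -- the points
  have hMT : M + 1 ≤ (M + 1) * 2 * (Nb + Nb) + (M + 3) := by omega
  have h2T : 2 ≤ (M + 1) * 2 * (Nb + Nb) + (M + 3) := by omega
  set eb : Fin (M + 1) → Fin ((M + 1) * 2 * (Nb + Nb) + (M + 3)) := Fin.castLE hMT with heb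
  set ec : Fin 2 → Fin ((M + 1) * 2 * (Nb + Nb) + (M + 3)) := Fin.castLE h2T with hec
  have hebi : Function.Injective eb := Fin.castLE_injective hMT
  have heci : Function.Injective ec := Fin.castLE_injective h2T
  -- decomposition
  have hdec : ∀ a b c, ∃ (κ : Qa) (d : ℂ), d ∈ D' b c ∧ f a b c = κ • η a + d := by
    intro a b c
    obtain ⟨y, hy, d, hd, h1⟩ := Submodule.mem_sup.1 (hf a b c)
    obtain ⟨κ, rfl⟩ := Submodule.mem_span_singleton.1 hy
    exact ⟨κ, d, hd, h1.symm⟩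
  choose κ d hd hfd using hdec
  obtain ⟨z, hz⟩ : ∃ z : Fin (M + 1) → Fin 2 → ℂ, z = fun b c => ξ (eb b) + ζ (ec c) := ⟨_, rfl⟩
  obtain ⟨β, hβ⟩ : ∃ β : Fin ((M + 1) * 2 * (Nb + Nb) + (M + 3)) → Fin (M + 1) → Fin 2 → ℂ,
    β = fun a b c => (κ a (eb b) (ec c))⁻¹ • d a (eb b) (ec c) := ⟨_, rfl⟩
  have hβD : ∀ a b c, β a b c ∈ D' (eb b) (ec c) := by
    intro a b c
    rw [hβ]
    exact Submodule.smul_mem _ _ (hd _ _ _)
  have hrel : ∀ a b c, κ a (eb b) (ec c) ≠ 0 → (η a + β a b c) * (η a + z b c) ∈ Th * V := by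
    intro a b c h0
    have h1 : η a + β a b c = (κ a (eb b) (ec c))⁻¹ • f a (eb b) (ec c) := by
      rw [hfd, smul_add, smul_smul, inv_mul_cancel₀ h0, one_smul, hβ]
    rw [h1, smul_mul_assoc]
    refine Submodule.smul_mem _ _ ?_
    have h2 := hC.rel a (eb b) (ec c)
    rw [add_assoc] at h2
    rw [hz]
    exact h2
  have hindη : Ind (Submodule.span Qa {(1 : ℂ)}) η := hC.ind1.comp Sum.inl Sum.inl_injective
  -- bad sets
  set A1 : Fin (M + 1) → Fin 2 → Finset (Fin ((M + 1) * 2 * (Nb + Nb) + (M + 3))) := fun b c =>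
    Finset.univ.filter fun a => κ a (eb b) (ec c) = 0 with hA1
  set A2 : Fin (M + 1) → Fin 2 → Finset (Fin ((M + 1) * 2 * (Nb + Nb) + (M + 3))) := fun b c =>
    Finset.univ.filter fun a => κ a (eb b) (ec c) ≠ 0 ∧ κ a (eb 0) (ec 0) ≠ 0 ∧
      β a b c + z b c - (β a 0 0 + z 0 0) ∉ Th with hA2
  have hle : (h + 2 * D0) ^ 2 ≤ Nb := by
    rw [hNb]
    exact Nat.pow_le_pow_left (by omega) 2
  have hc1 : ∀ b c, (A1 b c).card ≤ Nb := by
    intro b c
    have := (hD (eb b) (ec c)).1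
    refine le_trans ?_ hle
    rw [← Fintype.card_coe]
    refine three_a (D := D' (eb b) (ec c)) hV hh (fun a : A1 b c => η a)
      (fun a : A1 b c => f a (eb b) (ec c)) (z b c) (fun a => hC.mη _)
      (hindη.comp _ Subtype.val_injective) (hD _ _).2.1 (fun a => ?_) (fun a => hC.fTh _ _ _)
      fun a => ?_
    · have h1 := (Finset.mem_filter.1 a.2).2
      rw [hfd, h1, zero_smul, zero_add]
      exact hd _ _ _
    · have h2 := hC.rel a (eb b) (ec c)
      rw [hz]
      rw [add_assoc] at h2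
      exact h2
  have hc2 : ∀ b c, (A2 b c).card ≤ Nb := by
    intro b c
    have := (hD (eb b) (ec c)).1
    have := (hD (eb 0) (ec 0)).1
    rw [← Fintype.card_coe]
    refine le_trans ?_ hNb.ge
    refine three_b (D := D' (eb b) (ec c)) (D' := D' (eb 0) (ec 0)) hV hh
      (fun a : A2 b c => η a) (fun a => β a b c) (fun a => β a 0 0) (z b c) (z 0 0)
      (fun a => hC.mη _) (hindη.comp _ Subtype.val_injective) (hD _ _).2.1 (hD _ _).2.1
      (fun a => hβD _ _ _) (fun a => hβD _ _ _) (fun a => (Finset.mem_filter.1 a.2).2.2.2)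
      (fun a => hrel _ _ _ (Finset.mem_filter.1 a.2).2.1)
      fun a => hrel _ _ _ (Finset.mem_filter.1 a.2).2.2.1
  -- a good point
  obtain ⟨a, ha⟩ : ∃ a, ∀ b c, a ∉ A1 b c ∧ a ∉ A2 b c := by
    by_contra hcon
    push Not at hcon
    have h1 : (Finset.univ : Finset (Fin ((M + 1) * 2 * (Nb + Nb) + (M + 3)))) ⊆
        (Finset.univ : Finset (Fin (M + 1) × Fin 2)).biUnion fun p => A1 p.1 p.2 ∪ A2 p.1 p.2 := by
      intro a _
      obtain ⟨b, c, h2⟩ := hcon a
      rw [Finset.mem_biUnion]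
      refine ⟨(b, c), Finset.mem_univ _, ?_⟩
      rw [Finset.mem_union]
      by_cases h3 : a ∈ A1 b c
      · exact Or.inl h3
      · exact Or.inr (h2 h3)
    have h2 := (Finset.card_le_card h1).trans Finset.card_biUnion_le
    have h3 : ∑ p : Fin (M + 1) × Fin 2, (A1 p.1 p.2 ∪ A2 p.1 p.2).card ≤
        ∑ _p : Fin (M + 1) × Fin 2, (Nb + Nb) := Finset.sum_le_sum fun p _ =>
      (Finset.card_union_le _ _).trans (add_le_add (hc1 _ _) (hc2 _ _))
    have h4 := h2.trans h3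
    rw [Finset.card_univ, Fintype.card_fin, Finset.sum_const, Finset.card_univ,
      Fintype.card_prod, Fintype.card_fin, Fintype.card_fin, smul_eq_mul] at h4
    omega
  have hκ : ∀ b c, κ a (eb b) (ec c) ≠ 0 := by
    intro b c h0
    exact (ha b c).1 (Finset.mem_filter.2 ⟨Finset.mem_univ _, h0⟩)
  have hTh : ∀ b c, β a b c + z b c - (β a 0 0 + z 0 0) ∈ Th := by
    intro b c
    by_contra h0
    exact (ha b c).2 (Finset.mem_filter.2 ⟨Finset.mem_univ _, hκ b c, hκ 0 0, h0⟩)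
  have hzV : ∀ b c, z b c ∈ V := by
    intro b c
    rw [hz]
    exact Submodule.add_mem _ (hC.mξ _) (hC.mζ _)
  obtain ⟨e, he⟩ : ∃ e : ℂ, e = β a 0 0 + z 0 0 := ⟨_, rfl⟩
  have hP : ∀ b c, η a ^ 2 + e * η a + e * z b c - z b c ^ 2 ∈ Th * V := by
    intro b c
    have h1 := hrel a b c (hκ b c)
    have h2 : (β a b c + z b c - (β a 0 0 + z 0 0)) * (η a + z b c) ∈ Th * V :=
      Submodule.mul_mem_mul (hTh b c) (Submodule.add_mem _ (hC.mη a) (hzV b c))
    have h3 : η a ^ 2 + e * η a + e * z b c - z b c ^ 2 = (η a + β a b c) * (η a + z b c) -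
        (β a b c + z b c - (β a 0 0 + z 0 0)) * (η a + z b c) := by
      rw [he]
      ring
    rw [h3]
    exact Submodule.sub_mem _ h1 h2
  have hmix : ∀ b, (ξ (eb b) - ξ (eb 0)) * (ζ (ec 1) - ζ (ec 0)) ∈ Th * V := by
    intro b
    have h1 := Submodule.sub_mem _ (Submodule.sub_mem _ (hP b 1) (hP b 0))
      (Submodule.sub_mem _ (hP 0 1) (hP 0 0))
    have h2 : (ξ (eb b) - ξ (eb 0)) * (ζ (ec 1) - ζ (ec 0)) = (-(1 / 2) : Qa) •
        ((η a ^ 2 + e * η a + e * z b 1 - z b 1 ^ 2) - (η a ^ 2 + e * η a + e * z b 0 - z b 0 ^ 2) -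
        ((η a ^ 2 + e * η a + e * z 0 1 - z 0 1 ^ 2) -
          (η a ^ 2 + e * η a + e * z 0 0 - z 0 0 ^ 2))) := by
      rw [Algebra.smul_def, map_neg, map_div₀, map_one, map_ofNat, hz]
      ring
    rw [h2]
    exact Submodule.smul_mem _ _ h1
  -- the last contradiction
  have hζ : ζ (ec 1) - ζ (ec 0) ∉ Th := by
    intro h0
    have h1 : LinearIndependent Qa (fun c : Fin 2 => Th.mkQ (ζ (ec c))) :=
      hC.ind.comp (fun c => Sum.inr (Sum.inr (ec c))) fun x y hxy =>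
        heci (Sum.inr_injective (Sum.inr_injective hxy))
    have h2 := h1.injective (a₁ := 1) (a₂ := 0) (by
      rw [← sub_eq_zero, ← map_sub]
      exact (Submodule.Quotient.mk_eq_zero Th).2 h0)
    exact absurd h2 (by decide)
  have hindξ : Ind (Submodule.span Qa {(1 : ℂ)}) (fun b : Fin M => ξ (eb b.succ) - ξ (eb 0)) := by
    have h1 : LinearIndependent Qa
        (fun b : Fin (M + 1) => (Submodule.span Qa {(1 : ℂ)}).mkQ (ξ (eb b))) :=
      hC.ind1.comp (fun b => Sum.inr (Sum.inl (eb b))) fun x y hxy =>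
        hebi (Sum.inl_injective (Sum.inr_injective hxy))
    have h2 := li_sub h1
    unfold Ind
    simp only [map_sub]
    exact h2
  have hsp : FiniteDimensional Qa (Submodule.span Qa {ζ (ec 1) - ζ (ec 0)}) :=
    FiniteDimensional.span_singleton Qa _
  have hfinal := key (X := Th ⊔ Submodule.span Qa {ζ (ec 1) - ζ (ec 0)}) (r := h + 1) hV
    le_sup_left (finrank_sup_le _ _ hh (by
      refine (finrank_span_le_card _).trans ?_
      simp)) (fun b : Fin M => ξ (eb b.succ) - ξ (eb 0)) (fun _ => ζ (ec 1) - ζ (ec 0))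
    (fun _ => 0) (fun b => Submodule.sub_mem _ (hC.mξ _) (hC.mξ _)) hindξ
    (fun b => Submodule.mem_sup_right (Submodule.mem_span_singleton_self _)) (fun _ => hζ)
    (fun _ => Submodule.zero_mem _) (fun b => by
      rw [add_zero]
      exact hmix b.succ)
  rw [Fintype.card_fin] at hfinal
  omega

end MP60829e.ZB
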