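import Mathlib
import Pool.Agent.Lib.MP_60829e_nt.ZB.StepA
import Pool.Agent.Lib.MP_60829e_nt.ZB.StepB
import Pool.Agent.Lib.MP_60829e_nt.ZB.Three

/-! # No large grid -/

open Module

namespace MP60829e.ZB

open MP60829e.ST (Qa Lsp Lt)

theorem noConf (h : ℕ) : ∃ T : ℕ, ∀ (V Th : Submodule Qa ℂ) (η ξ ζ : Fin T → ℂ)
    (f : Fin T → Fin T → Fin T → ℂ), KR V → FiniteDimensional Qa Th → finrank Qa Th ≤ h →
    Conf V Th T η ξ ζ f → False := by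
  obtain ⟨D0, hD0⟩ : ∃ D0, ∀ t, ∃ T : ℕ, ∀ (V Th : Submodule Qa ℂ) (η ξ ζ : Fin T → ℂ)
      (f : Fin T → Fin T → Fin T → ℂ) (P D : Fin T → Fin T → Submodule Qa ℂ), KR V →
      FiniteDimensional Qa Th → finrank Qa Th ≤ h → Conf V Th T η ξ ζ f →
      (∀ a c, FiniteDimensional Qa (P a c) ∧ finrank Qa (P a c) ≤ h + 17 ∧ P a c ≤ V) →
      (∀ b c, FiniteDimensional Qa (D b c) ∧ finrank Qa (D b c) ≤ (h + 17) ^ 2 ∧ D b c ≤ V) →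
      (∀ a b c, f a b c ∈ P a c ⊔ D b c) →
      ∃ e1 e2 e3 : Fin t → Fin T, Function.Injective e1 ∧ Function.Injective e2 ∧
        Function.Injective e3 ∧ ∃ D' : Fin t → Fin t → Submodule Qa ℂ,
          (∀ b c, FiniteDimensional Qa (D' b c) ∧ finrank Qa (D' b c) ≤ D0 ∧ D' b c ≤ V) ∧
          ∀ a b c, f (e1 a) (e2 b) (e3 c) ∈ Submodule.span Qa {η (e1 a)} ⊔ D' b c :=
    stepB' h (h + 17) ((h + 17) ^ 2)
  obtain ⟨t3, h3⟩ := three h D0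
  obtain ⟨t2, h2⟩ := hD0 t3
  obtain ⟨t1, h1⟩ := stepA h t2
  refine ⟨t1, fun V Th η ξ ζ f hV hTf hTh hc => ?_⟩
  obtain ⟨e1, e2, e3, i1, i2, i3, P, D, hP, hD, hfPD⟩ := h1 V Th η ξ ζ f hV hTf hTh hc
  have hc1 := hc.comp i1 i2 i3
  obtain ⟨e1', e2', e3', i1', i2', i3', D', hD', hfD'⟩ :=
    h2 V Th _ _ _ _ P D hV hTf hTh hc1 hP hD hfPD
  exact h3 V Th _ _ _ _ D' hV hTf hTh (hc1.comp i1' i2' i3') hD' hfD'

end MP60829e.ZB
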