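import Mathlib
import Pool.Agent.Lib.MP_60829e_nt.ZB.Main
import Pool.Agent.Lib.MP_60829e_nt.ZB.HypL
import Pool.Agent.Lib.MP_60829e_nt.SK.Row

/-! # The bad integers contain no box of prime factors -/

open Module

namespace MP60829e.ZB

open MP60829e.ST (Qa Lsp Lt)
open MP60829e.Rate (GridFree)

/-- Independent elements of a row. (helper12) PROOF: the differences `r a.succ - r 0` span a space of
dimension `T`, so the classes modulo `U` of the `r a` span at least `T - dim U ≥ t` dimensions;
`exists_linearIndependent'`. -/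
theorem row_sub {T t : ℕ} (r : Fin (T + 1) → ℂ)
    (hr : LinearIndependent Qa (fun a : Fin T => r a.succ - r 0)) (U : Submodule Qa ℂ)
    [FiniteDimensional Qa U] (ht : t + finrank Qa U ≤ T) :
    ∃ e : Fin t → Fin (T + 1), Function.Injective e ∧ Ind U (fun a => r (e a)) := by
  sorry

/-- (helper12) PROOF: `noConf h` gives `T`. For a box `m * q 0 a * q 1 b * q 2 c` of side
`T' = 4 T + 2 h + 10` inside `BadZ Lt Th`: `η a = log (q 0 a)`, `ξ b = log (q 1 b)`,
`ζ c = log m + log (q 2 c)`; the rows have independent differences (`SK.finrank_row` or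
`Rate.log_diff_indep`). Choose subrows with `row_sub` for `U = Th + Qa`, then
`U = Th + Qa + span η`, then `U = Th + Qa + span η + span ξ`: independent modulo `Th + Qa`,
so modulo `Th` and modulo `Qa` (`Conf`). -/
theorem gridFree_badZ (h : ℕ) : ∃ T : ℕ, 2 ≤ T ∧ ∀ Th : Submodule Qa ℂ, FiniteDimensional Qa Th →
    finrank Qa Th ≤ h → GridFree 3 T (BadZ Lt Th) := by
  sorry

end MP60829e.ZB
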