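import Mathlib
import Pool.Agent.Lib.MP_60829e_nt.ZB.Defs

/-! # Good tuples -/

open Module

namespace MP60829e.ZB

open MP60829e.ST (Qa Lsp Lt)

/-- The space of `Th` and of the `x j`, `j < i`. -/
noncomputable def Eb (Th : Submodule Qa ℂ) {n : ℕ} (x : Fin n → ℂ) (i : Fin n) : Submodule Qa ℂ :=
  Th ⊔ Submodule.span Qa (x '' {j | j < i})

/-- Good tuples. -/
def GoodT (Th : Submodule Qa ℂ) {n : ℕ} (x : Fin n → ℂ) : Prop :=
  ∀ i, ∀ l ∈ Lt, l * x i ∈ Eb Th x i * Lt → l ∈ Eb Th x i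

end MP60829e.ZB
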