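import Mathlib
import Pool.Agent.Lib.MP_60829e_nt.ZB.TupDefs
import Pool.Agent.Lib.MP_60829e_nt.MFinal

/-! # Independence of the products for a good tuple -/

open Module

namespace MP60829e.ZB

open MP60829e.ST (Qa Lsp Lt)

private theorem ind_baker {I : Type} (w : I → ℂ) (h : ∀ j, IsAlgebraic ℚ (Complex.exp (w j)))
    (hli : LinearIndependent ℚ w) :
    LinearIndependent Qa (Sum.elim (fun _ : Unit => (1 : ℂ)) w) := by
  classical
  have hw : LinearIndependent Qa w := by
    rw [linearIndependent_iff_finset_linearIndependent]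
    intro s
    rw [Fintype.linearIndependent_iff]
    intro g hg p
    have h1 := Pool.Agent.Lib.MP_60829e_nt.Bk.baker_hom (fun i : s => w i.1) (fun i => h i.1)
      (hli.comp (fun i : s => i.1) Subtype.val_injective) (fun i => ((g i : Qa) : ℂ))
      (fun i => mem_algebraicClosure_iff.mp (g i).2) (by
        rw [← hg]
        refine Finset.sum_congr rfl fun i _ => ?_
        rw [mul_comm]
        rfl) p
    exact Subtype.ext h1
  refine LinearIndependent.sum_type (LinearIndependent.of_subsingleton () one_ne_zero) hw ?_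
  rw [Submodule.disjoint_def]
  intro x hx hx'
  rw [Set.range_const, Submodule.mem_span_singleton] at hx
  obtain ⟨c, rfl⟩ := hx
  by_contra hne
  have hc : c ≠ 0 := by
    rintro rfl
    exact hne (zero_smul _ _)
  have h1 : (1 : ℂ) ∈ Submodule.span Qa (Set.range w) := by
    have := Submodule.smul_mem _ c⁻¹ hx'
    rwa [smul_smul, inv_mul_cancel₀ hc, one_smul] at this
  have h2 : (1 : ℂ) ∈ Lsp := Submodule.span_mono (by
    rintro _ ⟨i, rfl⟩
    exact h i) h1
  exact Pool.Agent.Lib.MP_60829e_nt.ML.one_notMem h2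

private theorem ind_key {n : ℕ} {x : Fin n → ℂ} {κ : Type} {v : κ → ℂ}
    (hB : LinearIndependent Qa (Sum.elim (fun _ : Unit => (1 : ℂ)) (Sum.elim x v)))
    (hx : ∀ i, x i ∈ Lt) (hv : ∀ c, v c ∈ Lt) (hg : GoodT (Submodule.span Qa {(1 : ℂ)}) x)
    (l : Fin n → ℂ) {l0 : ℂ} (hl0 : l0 ∈ Lt)
    (hl : ∀ i, l i ∈ Submodule.span Qa (x '' {j | i ≤ j} ∪ Set.range v))
    (h : l0 + ∑ i, x i * l i = 0) : ∀ i, l i = 0 := by
  classical
  by_contra hcon
  push Not at hcon
  obtain ⟨i0, hi0⟩ := hcon
  obtain ⟨I, hI, hmax⟩ := (Finset.univ.filter fun i => l i ≠ 0).exists_max_image id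
    ⟨i0, Finset.mem_filter.2 ⟨Finset.mem_univ _, hi0⟩⟩
  have hI0 : l I ≠ 0 := (Finset.mem_filter.1 hI).2
  have hlt : ∀ i, I < i → l i = 0 := by
    intro i hi
    by_contra hne
    exact absurd (hmax i (Finset.mem_filter.2 ⟨Finset.mem_univ _, hne⟩)) (not_le.2 hi)
  have hLt : ∀ i, l i ∈ Lt := by
    intro i
    refine (Submodule.span_le.2 ?_) (hl i)
    rintro y (⟨j, -, rfl⟩ | ⟨c, rfl⟩)
    · exact hx j
    · exact hv c
  have h1 : l I * x I ∈ Eb (Submodule.span Qa {(1 : ℂ)}) x I * Lt := by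
    have h2 : ∑ i, x i * l i = x I * l I + ∑ i ∈ Finset.univ.filter (fun i => i < I), x i * l i := by
      rw [← Finset.add_sum_erase Finset.univ _ (Finset.mem_univ I)]
      congr 1
      symm
      refine Finset.sum_subset ?_ ?_
      · intro i hi
        exact Finset.mem_erase.2 ⟨ne_of_lt (Finset.mem_filter.1 hi).2, Finset.mem_univ _⟩
      · intro i hi hi'
        have h3 : ¬ i < I := fun h => hi' (Finset.mem_filter.2 ⟨Finset.mem_univ _, h⟩)
        rw [hlt i (lt_of_le_of_ne (not_lt.1 h3) (Finset.mem_erase.1 hi).1.symm), mul_zero]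
    have h3 : l I * x I =
        -(1 * l0 + ∑ i ∈ Finset.univ.filter (fun i => i < I), x i * l i) := by
      rw [h2] at h
      linear_combination h
    rw [h3]
    refine Submodule.neg_mem _ (Submodule.add_mem _ ?_ (Submodule.sum_mem _ fun i hi => ?_))
    · exact Submodule.mul_mem_mul (Submodule.mem_sup_left (Submodule.mem_span_singleton_self 1))
        hl0
    · exact Submodule.mul_mem_mul (Submodule.mem_sup_right
        (Submodule.subset_span ⟨i, (Finset.mem_filter.1 hi).2, rfl⟩)) (hLt i)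
  have h2 := hg I (l I) (hLt I) h1
  have h4 : Disjoint (Submodule.span Qa ((Sum.elim (fun _ : Unit => (1 : ℂ)) (Sum.elim x v)) ''
      {y | (∃ j, I ≤ j ∧ y = Sum.inr (Sum.inl j)) ∨ ∃ c, y = Sum.inr (Sum.inr c)}))
      (Submodule.span Qa ((Sum.elim (fun _ : Unit => (1 : ℂ)) (Sum.elim x v)) ''
      {y | y = Sum.inl () ∨ ∃ j, j < I ∧ y = Sum.inr (Sum.inl j)})) := by
    refine hB.disjoint_span_image ?_
    rw [Set.disjoint_left]
    rintro y (⟨j, hj, rfl⟩ | ⟨c, rfl⟩) (h | ⟨j', hj', h⟩)
    · cases h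
    · have h5 : j = j' := Sum.inl.inj (Sum.inr.inj h)
      exact absurd hj (not_le.2 (h5 ▸ hj'))
    · cases h
    · cases Sum.inr.inj h
  refine hI0 (Submodule.disjoint_def.1 h4 (l I) ?_ ?_)
  · refine (Submodule.span_mono ?_) (hl I)
    rintro y (⟨j, hj, rfl⟩ | ⟨c, rfl⟩)
    · exact ⟨Sum.inr (Sum.inl j), Or.inl ⟨j, hj, rfl⟩, rfl⟩
    · exact ⟨Sum.inr (Sum.inr c), Or.inr ⟨c, rfl⟩, rfl⟩
  · refine (sup_le ?_ ?_ : Eb (Submodule.span Qa {(1 : ℂ)}) x I ≤ _) h2
    · refine Submodule.span_mono ?_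
      rintro y rfl
      exact ⟨Sum.inl (), Or.inl rfl, rfl⟩
    · refine Submodule.span_mono ?_
      rintro y ⟨j, hj, rfl⟩
      exact ⟨Sum.inr (Sum.inl j), Or.inr ⟨j, hj, rfl⟩, rfl⟩

/-- Formal relations only: for `Th = Qa`. `v` is any family of logarithms such that `x` and `v`
together are `ℚ`-independent. -/
theorem indep_of_good {n : ℕ} {x : Fin n → ℂ} (hx : ∀ i, IsAlgebraic ℚ (Complex.exp (x i)))
    (hg : GoodT (Submodule.span Qa {(1 : ℂ)}) x) {κ : Type} (v : κ → ℂ)
    (hv : ∀ c, IsAlgebraic ℚ (Complex.exp (v c))) (hli : LinearIndependent ℚ (Sum.elim x v)) :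
    LinearIndependent Qa (Sum.elim (Sum.elim (fun _ : Unit => (1 : ℂ)) (Sum.elim x v))
      (Sum.elim (fun p : {p : Fin n × Fin n // p.1 ≤ p.2} => x p.1.1 * x p.1.2)
        (fun p : Fin n × κ => x p.1 * v p.2))) := by
  classical
  have hB := ind_baker (Sum.elim x v) (by rintro (i | c); exacts [hx i, hv c]) hli
  have hxL : ∀ i, x i ∈ Lt := fun i => Submodule.subset_span (Or.inr (hx i))
  have hvL : ∀ c, v c ∈ Lt := fun c => Submodule.subset_span (Or.inr (hv c))
  obtain ⟨ρ, hρ⟩ := (Finsupp.linearCombination Qa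
    (Sum.elim (fun _ : Unit => (1 : ℂ)) (Sum.elim x v))).exists_leftInverse_of_injective
      (LinearMap.ker_eq_bot.2 hB)
  have hρB : ∀ b, ρ (Sum.elim (fun _ : Unit => (1 : ℂ)) (Sum.elim x v) b) =
      Finsupp.single b 1 := by
    intro b
    have h1 := LinearMap.congr_fun hρ (Finsupp.single b 1)
    rw [LinearMap.comp_apply, Finsupp.linearCombination_single, one_smul, LinearMap.id_apply] at h1
    exact h1
  obtain ⟨w, hw⟩ : ∃ w : Fin n → (Unit ⊕ (Fin n ⊕ κ)) ⊕
      ({p : Fin n × Fin n // p.1 ≤ p.2} ⊕ Fin n × κ) → ℂ, w = fun i =>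
        Sum.elim (fun _ => 0) (Sum.elim (fun p => if p.1.1 = i then x p.1.2 else 0)
          (fun p => if p.1 = i then v p.2 else 0)) := ⟨_, rfl⟩
  obtain ⟨w0, hw0⟩ : ∃ w0 : (Unit ⊕ (Fin n ⊕ κ)) ⊕
      ({p : Fin n × Fin n // p.1 ≤ p.2} ⊕ Fin n × κ) → ℂ, w0 =
        Sum.elim (Sum.elim (fun _ : Unit => (1 : ℂ)) (Sum.elim x v)) (fun _ => 0) := ⟨_, rfl⟩
  rw [linearIndependent_iff]
  intro g hgz
  -- the decomposition
  have hdec : Finsupp.linearCombination Qa
      (Sum.elim (Sum.elim (fun _ : Unit => (1 : ℂ)) (Sum.elim x v))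
      (Sum.elim (fun p : {p : Fin n × Fin n // p.1 ≤ p.2} => x p.1.1 * x p.1.2)
        (fun p : Fin n × κ => x p.1 * v p.2))) =
      Finsupp.linearCombination Qa w0 +
        ∑ i, (LinearMap.mulLeft Qa (x i)).comp (Finsupp.linearCombination Qa (w i)) := by
    refine Finsupp.lhom_ext fun j a => ?_
    rw [LinearMap.add_apply, LinearMap.sum_apply, Finsupp.linearCombination_single,
      Finsupp.linearCombination_single]
    simp only [LinearMap.comp_apply, LinearMap.mulLeft_apply, Finsupp.linearCombination_single]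
    rw [hw0, hw]
    rcases j with j | (p | p)
    · simp
    · simp only [Sum.elim_inr, Sum.elim_inl, smul_zero, zero_add]
      rw [Finset.sum_eq_single p.1.1]
      · rw [if_pos rfl, mul_smul_comm]
      · intro i _ hi
        rw [if_neg (Ne.symm hi), smul_zero, mul_zero]
      · intro h
        exact absurd (Finset.mem_univ _) h
    · simp only [Sum.elim_inr, smul_zero, zero_add]
      rw [Finset.sum_eq_single p.1]
      · rw [if_pos rfl, mul_smul_comm]
      · intro i _ hi
        rw [if_neg (Ne.symm hi), smul_zero, mul_zero]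
      · intro h
        exact absurd (Finset.mem_univ _) h
  have hmem : ∀ (U : Submodule Qa ℂ) (u : (Unit ⊕ (Fin n ⊕ κ)) ⊕
      ({p : Fin n × Fin n // p.1 ≤ p.2} ⊕ Fin n × κ) → ℂ), (∀ j, u j ∈ U) →
      Finsupp.linearCombination Qa u g ∈ U := by
    intro U u hu
    rw [Finsupp.linearCombination_apply, Finsupp.sum]
    exact Submodule.sum_mem _ fun j _ => Submodule.smul_mem _ _ (hu j)
  rw [hdec, LinearMap.add_apply, LinearMap.sum_apply] at hgz
  simp only [LinearMap.comp_apply, LinearMap.mulLeft_apply] at hgz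
  have h0L : Finsupp.linearCombination Qa w0 g ∈ Lt := by
    refine hmem _ _ ?_
    rw [hw0]
    rintro ((_ | (i | c)) | _)
    · exact Submodule.subset_span (Or.inl rfl)
    · exact hxL i
    · exact hvL c
    · exact Submodule.zero_mem _
  have hlz := ind_key hB hxL hvL hg (fun i => Finsupp.linearCombination Qa (w i) g) h0L
    (by
      intro i
      refine hmem _ _ ?_
      rw [hw]
      rintro (_ | (p | p))
      · exact Submodule.zero_mem _
      · show (if p.1.1 = i then x p.1.2 else 0) ∈ _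
        split_ifs with h
        · exact Submodule.subset_span (Or.inl ⟨p.1.2, h ▸ p.2, rfl⟩)
        · exact Submodule.zero_mem _
      · show (if p.1 = i then v p.2 else 0) ∈ _
        split_ifs with h
        · exact Submodule.subset_span (Or.inr ⟨p.2, rfl⟩)
        · exact Submodule.zero_mem _) hgz
  have h0z : Finsupp.linearCombination Qa w0 g = 0 := by
    rw [Finset.sum_eq_zero (fun i _ => by
      have := hlz i
      beta_reduce at this
      rw [this, mul_zero]), add_zero] at hgz
    exact hgz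
  -- the coefficients
  have hc0 : ∀ b, (Finsupp.lapply b).comp (ρ.comp (Finsupp.linearCombination Qa w0)) =
      Finsupp.lapply (Sum.inl b) := by
    intro b
    refine Finsupp.lhom_ext fun j a => ?_
    rw [LinearMap.comp_apply, LinearMap.comp_apply, Finsupp.linearCombination_single, map_smul,
      map_smul, Finsupp.lapply_apply, Finsupp.lapply_apply, hw0]
    rcases j with j | j
    · rw [Sum.elim_inl, hρB, Finsupp.single_apply, Finsupp.single_apply]
      simp only [Sum.inl.injEq, smul_eq_mul, mul_ite, mul_one, mul_zero]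
    · rw [Sum.elim_inr, map_zero, Finsupp.zero_apply, smul_zero, Finsupp.single_apply,
        if_neg (by simp)]
  have hρx : ∀ j, ρ (x j) = Finsupp.single (Sum.inr (Sum.inl j)) 1 := fun j =>
    hρB (Sum.inr (Sum.inl j))
  have hρv : ∀ c, ρ (v c) = Finsupp.single (Sum.inr (Sum.inr c)) 1 := fun c =>
    hρB (Sum.inr (Sum.inr c))
  have hc1 : ∀ p : {p : Fin n × Fin n // p.1 ≤ p.2}, (Finsupp.lapply (Sum.inr (Sum.inl p.1.2))).comp
      (ρ.comp (Finsupp.linearCombination Qa (w p.1.1))) =
      Finsupp.lapply (Sum.inr (Sum.inl p)) := by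
    intro q
    refine Finsupp.lhom_ext fun y a => ?_
    rw [LinearMap.comp_apply, LinearMap.comp_apply, Finsupp.linearCombination_single,
      map_smul, map_smul, Finsupp.lapply_apply, Finsupp.lapply_apply, hw]
    rcases y with y | (p | p)
    · simp
    · show a • ρ (if p.1.1 = q.1.1 then x p.1.2 else 0) (Sum.inr (Sum.inl q.1.2)) = _
      by_cases h1 : p.1.1 = q.1.1
      · rw [if_pos h1, hρx, Finsupp.single_apply, Finsupp.single_apply]
        by_cases h2 : p.1.2 = q.1.2
        · have h3 : p = q := Subtype.ext (Prod.ext h1 h2)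
          rw [if_pos (by rw [h2]), if_pos (by rw [h3]), smul_eq_mul, mul_one]
        · rw [if_neg (fun h => h2 (Sum.inl.inj (Sum.inr.inj h))),
            if_neg (fun h => h2 (by rw [Sum.inl.inj (Sum.inr.inj h)])), smul_zero]
      · rw [if_neg h1, map_zero, Finsupp.zero_apply, smul_zero, Finsupp.single_apply,
          if_neg (fun h => h1 (by rw [Sum.inl.inj (Sum.inr.inj h)]))]
    · show a • ρ (if p.1 = q.1.1 then v p.2 else 0) (Sum.inr (Sum.inl q.1.2)) = _
      have h0 : ¬ ((Sum.inr (Sum.inr p) : (Unit ⊕ (Fin n ⊕ κ)) ⊕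
          ({p : Fin n × Fin n // p.1 ≤ p.2} ⊕ Fin n × κ)) = Sum.inr (Sum.inl q)) := by simp
      rw [Finsupp.single_apply, if_neg h0]
      split_ifs
      · rw [hρv, Finsupp.single_apply, if_neg (by simp), smul_zero]
      · rw [map_zero, Finsupp.zero_apply, smul_zero]
  have hc2 : ∀ q : Fin n × κ, (Finsupp.lapply (Sum.inr (Sum.inr q.2))).comp
      (ρ.comp (Finsupp.linearCombination Qa (w q.1))) =
      Finsupp.lapply (Sum.inr (Sum.inr q)) := by
    intro q
    refine Finsupp.lhom_ext fun y a => ?_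
    rw [LinearMap.comp_apply, LinearMap.comp_apply, Finsupp.linearCombination_single,
      map_smul, map_smul, Finsupp.lapply_apply, Finsupp.lapply_apply, hw]
    rcases y with y | (p | p)
    · simp
    · show a • ρ (if p.1.1 = q.1 then x p.1.2 else 0) (Sum.inr (Sum.inr q.2)) = _
      have h0 : ¬ ((Sum.inr (Sum.inl p) : (Unit ⊕ (Fin n ⊕ κ)) ⊕
          ({p : Fin n × Fin n // p.1 ≤ p.2} ⊕ Fin n × κ)) = Sum.inr (Sum.inr q)) := by simp
      rw [Finsupp.single_apply, if_neg h0]
      split_ifs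
      · rw [hρx, Finsupp.single_apply, if_neg (by simp), smul_zero]
      · rw [map_zero, Finsupp.zero_apply, smul_zero]
    · show a • ρ (if p.1 = q.1 then v p.2 else 0) (Sum.inr (Sum.inr q.2)) = _
      by_cases h1 : p.1 = q.1
      · rw [if_pos h1, hρv, Finsupp.single_apply, Finsupp.single_apply]
        by_cases h2 : p.2 = q.2
        · have h3 : p = q := Prod.ext h1 h2
          rw [if_pos (by rw [h2]), if_pos (by rw [h3]), smul_eq_mul, mul_one]
        · rw [if_neg (fun h => h2 (Sum.inr.inj (Sum.inr.inj h))),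
            if_neg (fun h => h2 (by rw [Sum.inr.inj (Sum.inr.inj h)])), smul_zero]
      · rw [if_neg h1, map_zero, Finsupp.zero_apply, smul_zero, Finsupp.single_apply,
          if_neg (fun h => h1 (by rw [Sum.inr.inj (Sum.inr.inj h)]))]
  ext j
  rcases j with b | (p | q)
  · have h1 := LinearMap.congr_fun (hc0 b) g
    rw [LinearMap.comp_apply, LinearMap.comp_apply, h0z, map_zero, map_zero] at h1
    rw [← Finsupp.lapply_apply (R := Qa), ← h1]
    rfl
  · have h1 := LinearMap.congr_fun (hc1 p) g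
    rw [LinearMap.comp_apply, LinearMap.comp_apply, hlz, map_zero, map_zero] at h1
    rw [← Finsupp.lapply_apply (R := Qa), ← h1]
    rfl
  · have h1 := LinearMap.congr_fun (hc2 q) g
    rw [LinearMap.comp_apply, LinearMap.comp_apply, hlz, map_zero, map_zero] at h1
    rw [← Finsupp.lapply_apply (R := Qa), ← h1]
    rfl

end MP60829e.ZB
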