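import Mathlib
import Pool.Agent.Lib.MP_60829e_nt.ZB.Defs
import Pool.Agent.Lib.MP_60829e_nt.Rate.Tuple

/-! # Counting tuples of integers with a bad coordinate -/

open Module Finset

namespace MP60829e.ZB

open MP60829e.ST (Qa Lsp Lt)

/-- If for every choice of the other coordinates the coordinate `i` has at most `c * B` bad values,
then at most `n * c * B ^ n` tuples have a bad coordinate. -/
theorem count_tuples (n B : ℕ) (Bd : Fin n → (Fin n → ℕ) → Set ℕ)
    (hdep : ∀ i b b', (∀ j, j ≠ i → b j = b' j) → Bd i b = Bd i b') (c : ℝ) (hc0 : 0 ≤ c)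
    (hc : ∀ i b, ({x : ℕ | 1 ≤ x ∧ x ≤ B ∧ x ∈ Bd i b}.ncard : ℝ) ≤ c * B) :
    ({b : Fin n → ℕ | (∀ i, 1 ≤ b i ∧ b i ≤ B) ∧ ∃ i, b i ∈ Bd i b}.ncard : ℝ) ≤
      n * c * B ^ n := by
  classical
  rcases n with _ | m
  · have h1 : {b : Fin 0 → ℕ | (∀ i, 1 ≤ b i ∧ b i ≤ B) ∧ ∃ i, b i ∈ Bd i b} = ∅ := by
      rw [Set.eq_empty_iff_forall_notMem]
      rintro b ⟨_, i, _⟩
      exact i.elim0
    rw [h1, Set.ncard_empty]
    simp
  · set cube : Finset (Fin (m + 1) → ℕ) := Fintype.piFinset (fun _ => Icc 1 B) with hcube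
    set S : Fin (m + 1) → Finset (Fin (m + 1) → ℕ) := fun i => cube.filter (fun b => b i ∈ Bd i b)
      with hS
    have hmem : ∀ b : Fin (m + 1) → ℕ, b ∈ cube ↔ ∀ i, 1 ≤ b i ∧ b i ≤ B := by
      intro b
      rw [hcube, Fintype.mem_piFinset]
      exact forall_congr' fun i => mem_Icc
    have h1 : {b : Fin (m + 1) → ℕ | (∀ i, 1 ≤ b i ∧ b i ≤ B) ∧ ∃ i, b i ∈ Bd i b} =
        ((univ.biUnion S : Finset (Fin (m + 1) → ℕ)) : Set (Fin (m + 1) → ℕ)) := by
      ext b
      rw [mem_coe, mem_biUnion]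
      constructor
      · rintro ⟨hb, i, hi⟩
        exact ⟨i, mem_univ _, mem_filter.mpr ⟨(hmem b).mpr hb, hi⟩⟩
      · rintro ⟨i, _, hi⟩
        rw [hS] at hi
        have hi2 := mem_filter.mp hi
        exact ⟨(hmem b).mp hi2.1, i, hi2.2⟩
    rw [h1, Set.ncard_coe_finset]
    have h2 : ∀ i, ((S i).card : ℝ) ≤ B ^ m * (c * B) := by
      intro i
      refine MP60829e.Rate.card_fiber m i B (S i) ?_ (c * B)
        (fun b' => (Icc 1 B).filter (fun x => x ∈ Bd i (i.insertNth 0 b'))) ?_ ?_ (by positivity)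
      · intro b hb j
        exact (hmem b).mp (mem_filter.mp hb).1 j
      · intro b hb
        have hb2 := mem_filter.mp hb
        rw [mem_filter, mem_Icc]
        refine ⟨(hmem b).mp hb2.1 i, ?_⟩
        rw [hdep i _ b]
        · exact hb2.2
        · intro j hj
          obtain ⟨j', rfl⟩ := Fin.exists_succAbove_eq hj
          simp
      · intro b _
        have h3 := hc i (i.insertNth 0 (b ∘ i.succAbove))
        have h4 : {x : ℕ | 1 ≤ x ∧ x ≤ B ∧ x ∈ Bd i (i.insertNth 0 (b ∘ i.succAbove))} =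
            (((Icc 1 B).filter (fun x => x ∈ Bd i (i.insertNth 0 (b ∘ i.succAbove)))) :
              Set ℕ) := by
          ext x
          rw [mem_coe, mem_filter, mem_Icc]
          exact ⟨fun h => ⟨⟨h.1, h.2.1⟩, h.2.2⟩, fun h => ⟨h.1.1, h.1.2, h.2⟩⟩
        rw [h4, Set.ncard_coe_finset] at h3
        exact h3
    have h5 : ((univ.biUnion S).card : ℝ) ≤ ∑ i, ((S i).card : ℝ) := by
      exact_mod_cast card_biUnion_le
    refine h5.trans ((Finset.sum_le_sum fun i _ => h2 i).trans (le_of_eq ?_))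
    rw [Finset.sum_const, Finset.card_univ, Fintype.card_fin, nsmul_eq_mul, pow_succ]
    ring

/-- `tup` from `one (h + n)`. -/
theorem tup_of_one (h n : ℕ) (hone : ∃ K : ℕ, ∀ Th : Submodule Qa ℂ, FiniteDimensional Qa Th →
    finrank Qa Th ≤ h + n → ∀ B : ℕ, 16 ≤ B →
      ({n : ℕ | 1 ≤ n ∧ n ≤ B ∧ n ∈ BadZ Lt Th}.ncard : ℝ) ≤
        K * Real.log (Real.log B) ^ K / Real.log B * B) :
    ∃ K : ℕ, ∀ Th : Submodule Qa ℂ, FiniteDimensional Qa Th →
    finrank Qa Th ≤ h → ∀ B : ℕ, 16 ≤ B →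
      ({b : Fin n → ℕ | (∀ i, 1 ≤ b i ∧ b i ≤ B) ∧ ¬ ∀ i, ∀ l ∈ Lt,
        l * ((Real.log (b i) : ℝ) : ℂ) ∈ (Th ⊔ Submodule.span Qa
          ((fun j => ((Real.log (b j) : ℝ) : ℂ)) '' {j | j < i})) * Lt →
        l ∈ Th ⊔ Submodule.span Qa
          ((fun j => ((Real.log (b j) : ℝ) : ℂ)) '' {j | j < i})}.ncard : ℝ) ≤
        K * Real.log (Real.log B) ^ K / Real.log B * B ^ n := by
  obtain ⟨K, hK⟩ := hone
  refine ⟨(n + 1) * K, fun Th hTh hTh2 B hB => ?_⟩
  have hL := MP60829e.Rate.log_ge B hB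
  have hl := MP60829e.Rate.loglog_ge B hB
  have he := Real.exp_one_gt_d9
  have hL0 : 0 < Real.log B := by linarith
  set E : Fin n → (Fin n → ℕ) → Submodule Qa ℂ := fun i b => Th ⊔ Submodule.span Qa
          ((fun j => ((Real.log (b j) : ℝ) : ℂ)) '' {j | j < i}) with hE
  have hc0 : (0 : ℝ) ≤ K * Real.log (Real.log B) ^ K / Real.log B := by positivity
  have h1 := count_tuples n B (fun i b => BadZ Lt (E i b)) (by
      intro i b b' hb
      have h2 : (fun j => ((Real.log (b j) : ℝ) : ℂ)) '' {j | j < i} =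
          (fun j => ((Real.log (b' j) : ℝ) : ℂ)) '' {j | j < i} := by
        apply Set.image_congr
        intro j hj
        have h3 : b j = b' j := hb j (ne_of_lt hj)
        simp only [h3]
      simp only [hE, h2]) (K * Real.log (Real.log B) ^ K / Real.log B) hc0 (by
      intro i b
      have hfin : FiniteDimensional Qa (Submodule.span Qa
          ((fun j => ((Real.log (b j) : ℝ) : ℂ)) '' {j | j < i})) :=
        FiniteDimensional.span_of_finite Qa (Set.toFinite _)
      have h4 : finrank Qa (Submodule.span Qa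
          ((fun j => ((Real.log (b j) : ℝ) : ℂ)) '' {j | j < i})) ≤ n := by
        have h5 : Submodule.span Qa ((fun j => ((Real.log (b j) : ℝ) : ℂ)) '' {j | j < i}) ≤
            Submodule.span Qa (Set.range (fun j => ((Real.log (b j) : ℝ) : ℂ))) :=
          Submodule.span_mono (Set.image_subset_range _ _)
        have hfin2 : FiniteDimensional Qa (Submodule.span Qa
            (Set.range (fun j => ((Real.log (b j) : ℝ) : ℂ)))) :=
          FiniteDimensional.span_of_finite Qa (Set.finite_range _)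
        have h6 := Submodule.finrank_mono h5
        have h7 := finrank_range_le_card (R := Qa) (fun j => ((Real.log (b j) : ℝ) : ℂ))
        rw [Fintype.card_fin] at h7
        exact h6.trans h7
      refine hK (E i b) inferInstance ?_ B hB
      exact (Submodule.finrank_add_le_finrank_add_finrank _ _).trans (add_le_add hTh2 h4))
  have h2 : {b : Fin n → ℕ | (∀ i, 1 ≤ b i ∧ b i ≤ B) ∧ ¬ ∀ i, ∀ l ∈ Lt,
        l * ((Real.log (b i) : ℝ) : ℂ) ∈ (Th ⊔ Submodule.span Qa
          ((fun j => ((Real.log (b j) : ℝ) : ℂ)) '' {j | j < i})) * Lt →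
        l ∈ Th ⊔ Submodule.span Qa
          ((fun j => ((Real.log (b j) : ℝ) : ℂ)) '' {j | j < i})} =
      {b : Fin n → ℕ | (∀ i, 1 ≤ b i ∧ b i ≤ B) ∧ ∃ i, b i ∈ BadZ Lt (E i b)} := by
    ext b
    refine and_congr Iff.rfl ?_
    push Not
    refine exists_congr fun i => ?_
    constructor
    · rintro ⟨l, hl1, hl2, hl3⟩
      exact ⟨l, hl1, hl3, hl2⟩
    · rintro ⟨l, hl1, hl2, hl3⟩
      exact ⟨l, hl1, hl3, hl2⟩
  rw [h2]
  refine h1.trans ?_
  refine mul_le_mul_of_nonneg_right ?_ (by positivity)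
  rw [← mul_div_assoc]
  refine div_le_div_of_nonneg_right ?_ hL0.le
  push_cast
  calc (n : ℝ) * (K * Real.log (Real.log B) ^ K)
      ≤ (n + 1) * (K * Real.log (Real.log B) ^ K) := by
        refine mul_le_mul_of_nonneg_right (by linarith) (by positivity)
    _ ≤ (n + 1) * (K * Real.log (Real.log B) ^ ((n + 1) * K)) := by
        refine mul_le_mul_of_nonneg_left ?_ (by positivity)
        refine mul_le_mul_of_nonneg_left ?_ (by positivity)
        exact pow_le_pow_right₀ hl (Nat.le_mul_of_pos_left K (Nat.succ_pos n))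
    _ = _ := by ring

end MP60829e.ZB
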