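import Mathlib
import Pool.Agent.Lib.MP_60829e_nt.ZB.TupDefs
import Pool.Agent.Lib.MP_60829e_nt.DensFinal

/-! # The coordinates of a good tuple are independent -/

open Module

namespace MP60829e.ZB

open MP60829e.ST (Qa Lsp Lt)

private theorem tb_not_le (E : Submodule Qa ℂ) [FiniteDimensional Qa E] : ¬ Lt ≤ E := by
  intro h
  have h1 := MP60829e.Dens.baker_log_primes
  have hm : ∀ p : Nat.Primes, ((Real.log (p : ℕ) : ℝ) : ℂ) ∈ E := by
    intro p
    refine h (Submodule.subset_span (Or.inr ?_))
    show IsAlgebraic ℚ (Complex.exp ((Real.log (p : ℕ) : ℝ) : ℂ))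
    rw [← Complex.ofReal_exp, Real.exp_log (by exact_mod_cast p.2.pos)]
    have : IsAlgebraic ℚ (((p : ℕ) : ℂ)) := isAlgebraic_natCast _
    simpa using this
  have h2 : LinearIndependent Qa (fun p : Nat.Primes => (⟨_, hm p⟩ : E)) :=
    LinearIndependent.of_comp E.subtype h1
  have h3 : Finite Nat.Primes := by
    by_contra hinf
    rw [not_finite_iff_infinite] at hinf
    have h4 := h2.comp _ (Infinite.natEmbedding Nat.Primes).injective
    have h5 := (h4.comp (fun i : Fin (finrank Qa E + 1) => (i : ℕ)) Fin.val_injective).fintype_card_le_finrank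
    rw [Fintype.card_fin] at h5
    omega
  exact not_finite Nat.Primes

/-- The logarithms are independent: `Lt` is infinite-dimensional. -/
theorem GoodT.notMem {Th : Submodule Qa ℂ} [FiniteDimensional Qa Th] {n : ℕ} {x : Fin n → ℂ}
    (hg : GoodT Th x) (i : Fin n) : x i ∉ Eb Th x i := by
  intro hx
  have h1 : FiniteDimensional Qa (Submodule.span Qa (x '' {j | j < i})) :=
    FiniteDimensional.span_of_finite Qa (Set.toFinite _)
  have h2 : FiniteDimensional Qa (Eb Th x i) := by
    unfold Eb
    infer_instance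
  refine tb_not_le (Eb Th x i) fun l hl => hg i l hl ?_
  have h3 : l * x i = x i * l := mul_comm _ _
  rw [h3]
  exact Submodule.mul_mem_mul hx hl

end MP60829e.ZB
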