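import Mathlib
import Pool.Agent.Lib.MP_60829e_nt.ZB.Grid
import Pool.Agent.Lib.MP_60829e_nt.ZB.TupDefs
import Pool.Agent.Lib.MP_60829e_nt.ZB.TupA
import Pool.Agent.Lib.MP_60829e_nt.ZB.TupB
import Pool.Agent.Lib.MP_60829e_nt.ZB.Ind
import Pool.Agent.Lib.MP_60829e_nt.ZB.Four
import Pool.Agent.Lib.MP_60829e_nt.SE.Count1

/-! # One integer, and tuples of integers -/

open Module

namespace MP60829e.ZB

open MP60829e.ST (Qa Lsp Lt)
open MP60829e.SE (count_gridFree)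

/-- `log n` as a complex number -/
noncomputable abbrev lg (n : ℕ) : ℂ := ((Real.log n : ℝ) : ℂ)

/-- One integer. -/
theorem one (h : ℕ) : ∃ K : ℕ, ∀ Th : Submodule Qa ℂ, FiniteDimensional Qa Th →
    finrank Qa Th ≤ h → ∀ B : ℕ, 16 ≤ B →
      ({n : ℕ | 1 ≤ n ∧ n ≤ B ∧ n ∈ BadZ Lt Th}.ncard : ℝ) ≤
        K * Real.log (Real.log B) ^ K / Real.log B * B := by
  obtain ⟨T, hT2, hT⟩ := gridFree_badZ h
  obtain ⟨K, hK⟩ := count_gridFree 3 T (by norm_num) hT2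
  exact ⟨K, fun Th h1 h2 B hB => hK _ (hT Th h1 h2) B hB⟩

/-- Tuples. -/
theorem tup (h n : ℕ) : ∃ K : ℕ, ∀ Th : Submodule Qa ℂ, FiniteDimensional Qa Th →
    finrank Qa Th ≤ h → ∀ B : ℕ, 16 ≤ B →
      ({b : Fin n → ℕ | (∀ i, 1 ≤ b i ∧ b i ≤ B) ∧ ¬ GoodT Th (fun i => lg (b i))}.ncard : ℝ) ≤
        K * Real.log (Real.log B) ^ K / Real.log B * B ^ n :=
  tup_of_one h n (one (h + n))

/-- Every span of `h` complex numbers. -/
theorem one_span (h : ℕ) : ∃ K : ℕ, ∀ θ : Fin h → ℂ, ∀ B : ℕ, 16 ≤ B →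
      ({n : ℕ | 1 ≤ n ∧ n ≤ B ∧ ∃ l ∈ Lt, l ∉ Submodule.span Qa (Set.range θ) ∧
        l * lg n ∈ Submodule.span Qa (Set.range θ) * Lt}.ncard : ℝ) ≤
        K * Real.log (Real.log B) ^ K / Real.log B * B := by
  obtain ⟨K, hK⟩ := one h
  refine ⟨K, fun θ B hB => hK _ ?_ ?_ B hB⟩
  · exact FiniteDimensional.span_of_finite Qa (Set.finite_range θ)
  · have h1 := finrank_range_le_card (R := Qa) θ
    rwa [Fintype.card_fin] at h1

/-- Four exponentials: let `θ` be a nonzero logarithm of an algebraic number. Then all but few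
natural numbers `n` have the following property: if `exp (t θ)` and `exp (t log n)` are algebraic,
then `t` is rational. -/
theorem four : ∃ K : ℕ, ∀ θ : ℂ, θ ≠ 0 → IsAlgebraic ℚ (Complex.exp θ) → ∀ B : ℕ, 16 ≤ B →
      ({n : ℕ | 1 ≤ n ∧ n ≤ B ∧ ∃ t : ℂ, IsAlgebraic ℚ (Complex.exp (t * θ)) ∧
        IsAlgebraic ℚ (Complex.exp (t * lg n)) ∧ ¬ ∃ q : ℚ, (q : ℂ) = t}.ncard : ℝ) ≤
        K * Real.log (Real.log B) ^ K / Real.log B * B :=
  four_of_one (one 1)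

end MP60829e.ZB
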